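import Mathlib
import Pool.Agent.R446.KR.Slow

set_option autoImplicit false

/-! Bootstrap bound for a monotone function of polynomial growth. -/

namespace Pool.Agent.R446.ED

open MeasureTheory Filter Topology Set Pool.Agent.R446.KR

open scoped ContDiff

/-- growth of `NN` under multiplication by `4` -/
theorem NN_four (q : ℕ) {T : ℝ} (hT : 4 ≤ T) : NN q (4 * T) ≤ 4 * 2 ^ q * NN q T := by
  unfold NN
  have h0 : 0 < T := by linarith
  have h1 : Real.log (4 * T) ≤ 2 * Real.log T := by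
    rw [Real.log_mul (by norm_num) h0.ne']
    have := Real.log_le_log (by norm_num : (0:ℝ) < 4) hT
    linarith
  have h2 : 0 ≤ Real.log (4 * T) := Real.log_nonneg (by linarith)
  have h3 : Real.log (4 * T) ^ q ≤ (2 * Real.log T) ^ q := pow_le_pow_left₀ h2 h1 q
  have h4 : 4 * T * Real.log (4 * T) ^ q ≤ 4 * T * (2 * Real.log T) ^ q :=
    mul_le_mul_of_nonneg_left h3 (by linarith)
  refine h4.trans (le_of_eq ?_)
  rw [mul_pow]
  ring

theorem boot {M : ℝ → ℝ} {q p : ℕ} {C0 C1 : ℝ} (hmono : ∀ S T : ℝ, 0 ≤ S → S ≤ T → M S ≤ M T)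
    (h0 : ∀ T : ℝ, 0 ≤ T → 0 ≤ M T) (hpol : ∀ T : ℝ, 0 ≤ T → M T ≤ C0 * (1 + T) ^ p)
    (h : ∀ ε : ℝ, 0 < ε → ∃ C X0 : ℝ, ∀ X : ℝ, X0 ≤ X → ∃ E : Set ℝ,
      E ⊆ Icc X (2 * X) ∧ volume.real E ≤ C * Real.log X ^ 2 ∧
      ∀ T ∈ Icc X (2 * X), T ∉ E → M T ≤ C1 * NN q T + ε * M (2 * T)) :
    ∃ A T0 : ℝ, 0 ≤ A ∧ ∀ T : ℝ, T0 ≤ T → M T ≤ A * NN q T := by
  obtain ⟨ε, hε⟩ : ∃ ε : ℝ, ε = min (1 / (8 * 2 ^ q)) (1 / (2 * 4 ^ p)) := ⟨_, rfl⟩
  have hεp : 0 < ε := by rw [hε]; positivity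
  have hε1 : ε ≤ 1 / (8 * 2 ^ q) := by rw [hε]; exact min_le_left _ _
  have hε2 : ε ≤ 1 / (2 * 4 ^ p) := by rw [hε]; exact min_le_right _ _
  obtain ⟨C, X0, hE⟩ := h ε hεp
  obtain ⟨δ, T1, hδ, hδ4, hT1, hN⟩ := NN_slow q (ε := 1) (by norm_num)
  obtain ⟨T2, hT2⟩ := eventually_atTop.1 (log_sq_small (max C 0) hδ)
  obtain ⟨B, hB⟩ : ∃ B : ℝ, B = 2 * |C1| := ⟨_, rfl⟩
  have hB0 : 0 ≤ B := by rw [hB]; positivity
  have hfin : ∀ X : ℝ, ∀ E : Set ℝ, E ⊆ Icc X (2 * X) → volume E ≠ ⊤ := fun X E hEs =>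
    ne_top_of_le_ne_top (by rw [Real.volume_Icc]; exact ENNReal.ofReal_ne_top) (measure_mono hEs)
  -- one step
  obtain ⟨T0, hT0⟩ : ∃ T0 : ℝ, T0 = max (max X0 T1) T2 := ⟨_, rfl⟩
  have step : ∀ T : ℝ, T0 ≤ T → M T ≤ B * NN q T + ε * M (4 * T) := by
    intro T hT
    have a1 : X0 ≤ T := ((le_max_left _ _).trans (le_max_left _ _)).trans (hT0 ▸ hT)
    have a2 : T1 ≤ T := ((le_max_right _ _).trans (le_max_left _ _)).trans (hT0 ▸ hT)
    have a3 : T2 ≤ T := (le_max_right _ _).trans (hT0 ▸ hT)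
    have hT4 : 4 ≤ T := hT1.trans a2
    have hTp : 0 < T := by linarith
    have hsm := hT2 T a3
    obtain ⟨E1, hE1s, hE1m, hE1⟩ := hE T a1
    have hCle : C * Real.log T ^ 2 ≤ max C 0 * Real.log T ^ 2 :=
      mul_le_mul_of_nonneg_right (le_max_left _ _) (by positivity)
    obtain ⟨w, hw⟩ : ∃ w : ℝ, w = max C 0 * Real.log T ^ 2 + 1 := ⟨_, rfl⟩
    rw [← hw] at hsm
    have hδT : δ * T ≤ T / 4 := by nlinarith
    obtain ⟨t1, ht1, ht1', ht1E⟩ := exists_good (X := T) (a := T) (b := T + w)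
      (m := C * Real.log T ^ 2) hE1m (hfin _ _ hE1s) (by linarith) le_rfl (by linarith)
    have u1 := hE1 t1 ht1' ht1E
    have u2 := hN T t1 a2 (by
      rw [abs_le]
      constructor
      · have := mul_pos hδ hTp
        linarith [ht1.1]
      · linarith [ht1.2])
    have u3 : NN q t1 ≤ 2 * NN q T := by
      have := (abs_le.1 u2).2
      linarith
    have hNt : 0 < NN q t1 := NN_pos q (by linarith [ht1.1])
    have m1 := hmono T t1 hTp.le ht1.1
    have m2 : M (2 * t1) ≤ M (4 * T) := hmono _ _ (by linarith [ht1.1]) (by linarith [ht1'.2])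
    have m3 : ε * M (2 * t1) ≤ ε * M (4 * T) := mul_le_mul_of_nonneg_left m2 hεp.le
    have m4 : C1 * NN q t1 ≤ |C1| * NN q t1 := mul_le_mul_of_nonneg_right (le_abs_self _) hNt.le
    have m5 : |C1| * NN q t1 ≤ |C1| * (2 * NN q T) := mul_le_mul_of_nonneg_left u3 (abs_nonneg _)
    have m6 : B * NN q T = |C1| * (2 * NN q T) := by rw [hB]; ring
    linarith
  have hT04 : 4 ≤ T0 := by
    rw [hT0]
    exact hT1.trans ((le_max_right _ _).trans (le_max_left _ _))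
  -- iteration
  have iter : ∀ n : ℕ, ∀ T : ℝ, T0 ≤ T → M T ≤ 2 * B * NN q T + ε ^ n * M (4 ^ n * T) := by
    intro n
    induction n with
    | zero =>
      intro T hT
      have hNT : 0 < NN q T := NN_pos q (by linarith)
      have : 0 ≤ 2 * B * NN q T := by positivity
      simp only [pow_zero, one_mul]
      linarith
    | succ n ih =>
      intro T hT
      have hT4 : 4 ≤ T := hT04.trans hT
      have hNT : 0 < NN q T := NN_pos q (by linarith)
      have s1 := step T hT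
      have s2 := ih (4 * T) (by linarith)
      have s3 : ε * M (4 * T) ≤ ε * (2 * B * NN q (4 * T) + ε ^ n * M (4 ^ n * (4 * T))) :=
        mul_le_mul_of_nonneg_left s2 hεp.le
      have s4 : ε * (2 * B * NN q (4 * T)) ≤ B * NN q T := by
        have k1 : NN q (4 * T) ≤ 4 * 2 ^ q * NN q T := NN_four q hT4
        have k2 : ε * (2 * B * NN q (4 * T)) ≤ 1 / (8 * 2 ^ q) * (2 * B * (4 * 2 ^ q * NN q T)) := by
          have hN4 : 0 < NN q (4 * T) := NN_pos q (by linarith)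
          gcongr
        refine k2.trans (le_of_eq ?_)
        field_simp
        ring
      have s5 : ε ^ (n + 1) * M (4 ^ (n + 1) * T) = ε * (ε ^ n * M (4 ^ n * (4 * T))) := by
        rw [show (4:ℝ) ^ (n + 1) * T = 4 ^ n * (4 * T) by ring]
        ring
      rw [s5]
      linarith
  -- limit
  refine ⟨2 * B, T0, by positivity, fun T hT => ?_⟩
  have hTp : 0 < T := by linarith
  have hbound : ∀ n : ℕ, M T ≤ 2 * B * NN q T + |C0| * (1 + T) ^ p * (1 / 2) ^ n := by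
    intro n
    have i1 := iter n T hT
    have i2 := hpol (4 ^ n * T) (by positivity)
    have i3 : M (4 ^ n * T) ≤ |C0| * (4 ^ n * (1 + T)) ^ p := by
      refine i2.trans ?_
      have j1 : (1 + 4 ^ n * T) ^ p ≤ (4 ^ n * (1 + T)) ^ p := by
        apply pow_le_pow_left₀ (by positivity)
        have : (1:ℝ) ≤ 4 ^ n := one_le_pow₀ (by norm_num)
        linarith
      calc C0 * (1 + 4 ^ n * T) ^ p ≤ |C0| * (1 + 4 ^ n * T) ^ p :=
            mul_le_mul_of_nonneg_right (le_abs_self _) (by positivity)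
        _ ≤ |C0| * (4 ^ n * (1 + T)) ^ p := mul_le_mul_of_nonneg_left j1 (abs_nonneg _)
    have i4 : ε ^ n ≤ (1 / (2 * 4 ^ p)) ^ n := pow_le_pow_left₀ hεp.le hε2 n
    have i5 : ε ^ n * M (4 ^ n * T) ≤ (1 / (2 * 4 ^ p)) ^ n * (|C0| * (4 ^ n * (1 + T)) ^ p) := by
      have hM : 0 ≤ M (4 ^ n * T) := h0 _ (by positivity)
      exact mul_le_mul i4 i3 hM (by positivity)
    have i6 : (1 / (2 * 4 ^ p)) ^ n * (|C0| * (4 ^ n * (1 + T)) ^ p) =
        |C0| * (1 + T) ^ p * (1 / 2) ^ n := by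
      have e1 : ((4:ℝ) ^ n * (1 + T)) ^ p = (4 ^ p) ^ n * (1 + T) ^ p := by
        rw [mul_pow, ← pow_mul, ← pow_mul, mul_comm n p]
      rw [e1, div_pow, one_pow, mul_pow, div_pow, one_pow]
      have e2 : ((4:ℝ) ^ p) ^ n ≠ 0 := by positivity
      field_simp
    linarith
  have hlim : Tendsto (fun n : ℕ => 2 * B * NN q T + |C0| * (1 + T) ^ p * (1 / 2 : ℝ) ^ n) atTop
      (𝓝 (2 * B * NN q T + |C0| * (1 + T) ^ p * 0)) :=
    ((tendsto_pow_atTop_nhds_zero_of_lt_one (by norm_num) (by norm_num)).const_mul _).const_add _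
  have := ge_of_tendsto' hlim hbound
  simpa using this

end Pool.Agent.R446.ED
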