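import Mathlib

set_option autoImplicit false

/-! Cut-off functions. -/

namespace Pool.Agent.R446.ED

open MeasureTheory Filter Topology Set
open scoped ContDiff

theorem cutoff (a δ R : ℝ) (ha : 0 ≤ a) (hδ : 0 < δ) (hR : 0 < R) : ∃ χ : ℝ → ℝ, ContDiff ℝ ∞ χ ∧
    HasCompactSupport χ ∧ (∀ x, χ (-x) = χ x) ∧ (∀ x, 0 ≤ χ x ∧ χ x ≤ 1) ∧ (∀ x, |x| ≤ a + δ → χ x = 0) ∧
    (∀ x, a + 2 * δ ≤ |x| → |x| ≤ R → χ x = 1) := by
  let f1 : ContDiffBump (0:ℝ) := ⟨a + δ, a + 2 * δ, by linarith, by linarith⟩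
  let f2 : ContDiffBump (0:ℝ) := ⟨R, R + 1, hR, by linarith⟩
  refine ⟨fun x => f2 x * (1 - f1 x), ?_, ?_, ?_, ?_, ?_, ?_⟩
  · exact f2.contDiff.mul (contDiff_const.sub f1.contDiff)
  · exact f2.hasCompactSupport.mul_right
  · intro x
    simp only [ContDiffBump.neg]
  · intro x
    have h1 := f1.nonneg (x := x)
    have h2 := f1.le_one (x := x)
    have h3 := f2.nonneg (x := x)
    have h4 := f2.le_one (x := x)
    constructor
    · exact mul_nonneg h3 (by linarith)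
    · nlinarith
  · intro x hx
    have : f1 x = 1 := f1.one_of_mem_closedBall (by simpa [Metric.mem_closedBall, f1] using hx)
    simp only [this, sub_self, mul_zero]
  · intro x h1 h2
    have e1 : f1 x = 0 := f1.zero_of_le_dist (by simpa [f1] using h1)
    have e2 : f2 x = 1 := f2.one_of_mem_closedBall (by simpa [Metric.mem_closedBall, f2] using h2)
    simp only [e1, e2, sub_zero, mul_one]

theorem V_close {k δ N : ℝ} (hk : 2 ≤ k) (hδ : 0 < δ) (hδ1 : δ ≤ 1 / 2) {g p χ : ℝ → ℝ} (hg : Continuous g)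
    (hg1 : ∀ x ∈ Icc (0:ℝ) 1, 0 ≤ g x ∧ g x ≤ 1) (hp : Continuous p) (hN : ∀ x, |p x| ≤ N)
    (hχ : Continuous χ) (h01 : ∀ x, 0 ≤ χ x ∧ χ x ≤ 1)
    (h1 : ∀ x, (k - 2) + 2 * δ ≤ |x| → |x| ≤ k + 1 → χ x = 1) :
    |(∫ x in (0:ℝ)..1, g x * p (k - 2 * x)) - ∫ x in (0:ℝ)..1, g x * (p (k - 2 * x) * χ (k - 2 * x))| ≤ N * δ := by
  have c1 : Continuous fun x : ℝ => g x * p (k - 2 * x) := by fun_prop
  have c2 : Continuous fun x : ℝ => g x * (p (k - 2 * x) * χ (k - 2 * x)) := by fun_prop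
  rw [← intervalIntegral.integral_sub (c1.intervalIntegrable _ _) (c2.intervalIntegrable _ _)]
  have c3 : Continuous fun x : ℝ => g x * p (k - 2 * x) - g x * (p (k - 2 * x) * χ (k - 2 * x)) := c1.sub c2
  rw [← intervalIntegral.integral_add_adjacent_intervals (a := 0) (b := 1 - δ) (c := 1)
    (c3.intervalIntegrable _ _) (c3.intervalIntegrable _ _)]
  have z1 : ∫ x in (0:ℝ)..(1 - δ), (g x * p (k - 2 * x) - g x * (p (k - 2 * x) * χ (k - 2 * x))) = 0 := by
    have : ∫ x in (0:ℝ)..(1 - δ), (g x * p (k - 2 * x) - g x * (p (k - 2 * x) * χ (k - 2 * x))) =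
        ∫ x in (0:ℝ)..(1 - δ), (0:ℝ) := by
      refine intervalIntegral.integral_congr fun x hx => ?_
      rw [uIcc_of_le (by linarith)] at hx
      have h3 : χ (k - 2 * x) = 1 := by
        have h4 : 0 ≤ k - 2 * x := by linarith [hx.2]
        refine h1 _ ?_ ?_
        · rw [abs_of_nonneg h4]; linarith [hx.2]
        · rw [abs_of_nonneg h4]; linarith [hx.1]
      simp only [h3, mul_one, sub_self]
    rw [this]; simp
  rw [z1, zero_add]
  have h2 : ‖∫ x in (1 - δ)..1, (g x * p (k - 2 * x) - g x * (p (k - 2 * x) * χ (k - 2 * x)))‖ ≤ N * |1 - (1 - δ)| := by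
    refine intervalIntegral.norm_integral_le_of_norm_le_const fun x hx => ?_
    rw [uIoc_of_le (by linarith)] at hx
    have h3 := hg1 x ⟨by linarith [hx.1], hx.2⟩
    have h4 := h01 (k - 2 * x)
    have e : g x * p (k - 2 * x) - g x * (p (k - 2 * x) * χ (k - 2 * x)) =
        g x * (1 - χ (k - 2 * x)) * p (k - 2 * x) := by ring
    rw [e, norm_mul, norm_mul, Real.norm_of_nonneg h3.1, Real.norm_of_nonneg (by linarith : 0 ≤ 1 - χ (k - 2 * x)),
      Real.norm_eq_abs]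
    have h5 : g x * (1 - χ (k - 2 * x)) ≤ 1 := by nlinarith
    calc g x * (1 - χ (k - 2 * x)) * |p (k - 2 * x)| ≤ 1 * |p (k - 2 * x)| :=
          mul_le_mul_of_nonneg_right h5 (abs_nonneg _)
      _ ≤ N := by rw [one_mul]; exact hN _
  rw [Real.norm_eq_abs] at h2
  refine h2.trans (le_of_eq ?_)
  rw [show 1 - (1 - δ) = δ by ring, abs_of_pos hδ]

end Pool.Agent.R446.ED
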