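import Mathlib
import Pool.Agent.R446.KR.Slow

/-!
Fourier transform of an even test function (piece ED-FT, helper369).
-/

set_option linter.all false

namespace Pool.Agent.R446.ED

open MeasureTheory Filter Topology Set Pool.Agent.R446.KR
open scoped ContDiff

theorem ft_facts (ψ : ℝ → ℝ) (hψ : ContDiff ℝ ∞ ψ) (hc : HasCompactSupport ψ) (he : ∀ x, ψ (-x) = ψ x) :
    Continuous (fun β : ℝ => ∫ x : ℝ, ψ x * Real.cos (x * β)) ∧
    (∀ N : ℕ, ∃ C : ℝ, 0 ≤ C ∧ ∀ β : ℝ, |∫ x : ℝ, ψ x * Real.cos (x * β)| ≤ C / (1 + |β|) ^ N) ∧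
    Integrable (fun β : ℝ => ∫ x : ℝ, ψ x * Real.cos (x * β)) ∧
    (∀ ξ : ℝ, ∫ β : ℝ, (∫ x : ℝ, ψ x * Real.cos (x * β)) * Real.cos (β * ξ) = 2 * Real.pi * ψ ξ) := by
  have hπ : (0 : ℝ) < 2 * Real.pi := by positivity
  have hπ1 : (1 : ℝ) ≤ 2 * Real.pi := by linarith [Real.pi_gt_three]
  have hψ' : ContDiff ℝ ∞ (fun x => (ψ x : ℂ)) := Complex.ofRealCLM.contDiff.comp hψ
  have hc' : HasCompactSupport (fun x => (ψ x : ℂ)) := by
    apply hc.comp_left (g := fun y : ℝ => (y : ℂ)); simp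
  obtain ⟨F, hF⟩ : ∃ F : SchwartzMap ℝ ℂ, ∀ x, F x = (ψ x : ℂ) := ⟨hc'.toSchwartzMap hψ', fun x => rfl⟩
  have hcont : Continuous ψ := hψ.continuous
  obtain ⟨G, hG⟩ : ∃ G : SchwartzMap ℝ ℂ, G = FourierTransform.fourier F := ⟨_, rfl⟩
  have hint : ∀ c : ℝ, Integrable (fun x => ψ x * Real.cos (x * c)) := fun c => by
    apply Continuous.integrable_of_hasCompactSupport (by fun_prop)
    exact hc.mul_right
  have hint2 : ∀ c : ℝ, Integrable (fun x => ψ x * Real.sin (x * c)) := fun c => by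
    apply Continuous.integrable_of_hasCompactSupport (by fun_prop)
    exact hc.mul_right
  have hodd : ∀ c : ℝ, ∫ x, ψ x * Real.sin (x * c) = 0 := fun c => by
    have h1 := integral_neg_eq_self (fun x => ψ x * Real.sin (x * c)) volume
    have h2 : (∫ x, ψ (-x) * Real.sin (-x * c)) = - ∫ x, ψ x * Real.sin (x * c) := by
      rw [← integral_neg]
      apply integral_congr_ae; filter_upwards with x
      rw [he, neg_mul, Real.sin_neg]; ring
    linarith
  have hGw : ∀ w : ℝ, G w = ((∫ x, ψ x * Real.cos (x * (2 * Real.pi * w)) : ℝ) : ℂ) := fun w => by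
    rw [hG, SchwartzMap.fourier_coe, Real.fourier_real_eq_integral_exp_smul]
    have e1 : ∀ v : ℝ, Complex.exp (↑(-2 * Real.pi * v * w) * Complex.I) • F v
        = ((ψ v * Real.cos (v * (2 * Real.pi * w)) : ℝ) : ℂ)
          - ((ψ v * Real.sin (v * (2 * Real.pi * w)) : ℝ) : ℂ) * Complex.I := fun v => by
      rw [hF, Complex.exp_mul_I, ← Complex.ofReal_cos, ← Complex.ofReal_sin, smul_eq_mul]
      have : -2 * Real.pi * v * w = -(v * (2 * Real.pi * w)) := by ring
      rw [this, Real.cos_neg, Real.sin_neg]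
      push_cast; ring
    simp_rw [e1]
    rw [integral_sub, integral_mul_const, integral_complex_ofReal, integral_complex_ofReal, hodd]
    · simp
    · exact (hint _).ofReal
    · exact (hint2 _).ofReal.mul_const _
  have hΦ : ∀ β : ℝ, ∫ x, ψ x * Real.cos (x * β) = (G (β / (2 * Real.pi))).re := fun β => by
    rw [hGw, Complex.ofReal_re]
    have : 2 * Real.pi * (β / (2 * Real.pi)) = β := by field_simp
    rw [this]
  refine ⟨?_, ?_, ?_, ?_⟩
  · simp_rw [hΦ]
    exact Complex.continuous_re.comp (G.continuous.comp (continuous_id.div_const _))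
  · intro N
    set C0 : ℝ := 2 ^ N * ((Finset.Iic (N, 0)).sup fun m : ℕ × ℕ => SchwartzMap.seminorm ℝ m.1 m.2) G with hC0
    have hb : ∀ w : ℝ, (1 + |w|) ^ N * ‖G w‖ ≤ C0 := fun w => by
      have := SchwartzMap.one_add_le_sup_seminorm_apply (𝕜 := ℝ) (m := (N, 0)) (k := N) (n := 0) le_rfl le_rfl G w
      simpa [norm_iteratedFDeriv_zero] using this
    have hC0' : 0 ≤ C0 := le_trans (by positivity) (hb 0)
    refine ⟨(2 * Real.pi) ^ N * C0, by positivity, fun β => ?_⟩
    rw [hΦ, le_div_iff₀ (by positivity)]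
    have h1 : |(G (β / (2 * Real.pi))).re| ≤ ‖G (β / (2 * Real.pi))‖ := Complex.abs_re_le_norm _
    have h2 : 1 + |β| ≤ 2 * Real.pi * (1 + |β / (2 * Real.pi)|) := by
      rw [abs_div, abs_of_pos hπ, mul_add, mul_div_cancel₀ _ hπ.ne']
      linarith
    have h3 : (1 + |β|) ^ N ≤ (2 * Real.pi) ^ N * (1 + |β / (2 * Real.pi)|) ^ N := by
      rw [← mul_pow]; exact pow_le_pow_left₀ (by positivity) h2 N
    calc |(G (β / (2 * Real.pi))).re| * (1 + |β|) ^ N
        ≤ ‖G (β / (2 * Real.pi))‖ * ((2 * Real.pi) ^ N * (1 + |β / (2 * Real.pi)|) ^ N) := by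
          apply mul_le_mul h1 h3 (by positivity) (norm_nonneg _)
      _ = (2 * Real.pi) ^ N * ((1 + |β / (2 * Real.pi)|) ^ N * ‖G (β / (2 * Real.pi))‖) := by ring
      _ ≤ (2 * Real.pi) ^ N * C0 := by
          apply mul_le_mul_of_nonneg_left (hb _) (by positivity)
  · simp_rw [hΦ]
    exact (G.integrable.comp_div hπ.ne').re
  · intro ξ
    have hinv : F ξ = ∫ w : ℝ, Complex.exp (↑(2 * Real.pi * w * ξ) * Complex.I) • G w := by
      have h1 : FourierTransformInv.fourierInv G = F := by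
        rw [hG]; exact FourierTransform.fourierInv_fourier_eq F
      have h2 : F ξ = (FourierTransformInv.fourierInv G : SchwartzMap ℝ ℂ) ξ := by rw [h1]
      rw [h2, SchwartzMap.fourierInv_coe, Real.fourierInv_eq']
      apply integral_congr_ae; filter_upwards with w
      congr 3
      simp [mul_comm, mul_left_comm]
      ring
    have hre : ψ ξ = ∫ w : ℝ, Real.cos (2 * Real.pi * w * ξ) * (∫ x, ψ x * Real.cos (x * (2 * Real.pi * w))) := by
      have h3 : ((ψ ξ : ℝ) : ℂ).re = (∫ w : ℝ, Complex.exp (↑(2 * Real.pi * w * ξ) * Complex.I) • G w).re := by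
        rw [← hinv, hF]
      rw [Complex.ofReal_re] at h3
      rw [h3]
      have h4 : Integrable (fun w : ℝ => Complex.exp (↑(2 * Real.pi * w * ξ) * Complex.I) • G w) := by
        change Integrable ((fun w : ℝ => Complex.exp (↑(2 * Real.pi * w * ξ) * Complex.I)) • ⇑G)
        apply (G.integrable (μ := volume)).bdd_smul 1 
        · exact (by fun_prop : Continuous fun w : ℝ => Complex.exp (↑(2 * Real.pi * w * ξ) * Complex.I)).aestronglyMeasurable
        · filter_upwards with w
          rw [Complex.norm_exp_ofReal_mul_I]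
      have h5 := integral_re h4
      simp only [RCLike.re_to_complex] at h5
      rw [← h5]
      apply integral_congr_ae; filter_upwards with w
      rw [hGw, smul_eq_mul, Complex.re_mul_ofReal, Complex.exp_ofReal_mul_I_re]
    have hsub := Measure.integral_comp_mul_left (fun β : ℝ => (∫ x : ℝ, ψ x * Real.cos (x * β)) * Real.cos (β * ξ)) (2 * Real.pi)
    rw [abs_of_pos (by positivity), smul_eq_mul] at hsub
    have h6 : ψ ξ = (2 * Real.pi)⁻¹ * ∫ β : ℝ, (∫ x : ℝ, ψ x * Real.cos (x * β)) * Real.cos (β * ξ) := by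
      rw [← hsub, hre]
      apply integral_congr_ae; filter_upwards with w
      ring
    rw [h6, mul_inv_cancel_left₀ hπ.ne']

end Pool.Agent.R446.ED
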