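import Mathlib
import Pool.Agent.R446.KR.Slow

set_option autoImplicit false

/-! Exceptional sets and monotone functions, one-sided versions. -/

namespace Pool.Agent.R446.ED

open MeasureTheory Filter Topology Set Pool.Agent.R446.KR

open scoped ContDiff

theorem sup_step {M : ℝ → ℝ} {q : ℕ} {m : ℝ} (hmono : ∀ S T : ℝ, 0 ≤ S → S ≤ T → M S ≤ M T)
    (h : ∀ ε : ℝ, 0 < ε → ∃ C X0 : ℝ, ∀ X : ℝ, X0 ≤ X → ∃ E : Set ℝ,
      E ⊆ Icc X (2 * X) ∧ volume.real E ≤ C * Real.log X ^ 2 ∧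
      ∀ T ∈ Icc X (2 * X), T ∉ E → M T ≤ (m + ε) * NN q T) :
    ∀ ε : ℝ, 0 < ε → ∀ᶠ T : ℝ in atTop, M T ≤ (m + ε) * NN q T := by
  intro ε0 hε0
  set ε : ℝ := ε0 / (2 * (|m| + 3)) with hε
  have hεp : 0 < ε := by positivity
  obtain ⟨C, X0, hE⟩ := h (min ε 1) (by positivity)
  obtain ⟨δ, T1, hδ, hδ4, hT1, hN⟩ := NN_slow q (ε := min ε 1) (by positivity)
  have hev := log_sq_small (max C 0) hδ
  obtain ⟨T2, hT2⟩ := eventually_atTop.1 hev
  refine eventually_atTop.2 ⟨max (max (2 * max X0 1) T1) (max T2 1 * 2), fun T hT => ?_⟩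
  have a1 : 2 * max X0 1 ≤ T := ((le_max_left _ _).trans (le_max_left _ _)).trans hT
  have a2 : T1 ≤ T := ((le_max_right _ _).trans (le_max_left _ _)).trans hT
  have a3 : max T2 1 * 2 ≤ T := (le_max_right _ _).trans hT
  have a4 : T2 ≤ T := by have := le_max_left T2 1; have := le_max_right T2 1; linarith
  have a5 : X0 ≤ T := by have := le_max_left X0 1; have := le_max_right X0 1; linarith
  have hT4 : 4 ≤ T := hT1.trans a2
  have hsm := hT2 T a4
  have hNT : 0 < NN q T := NN_pos q (by linarith)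
  have hmin : min ε 1 ≤ ε := min_le_left _ _
  have hmin1 : min ε 1 ≤ 1 := min_le_right _ _
  have hmin0 : 0 < min ε 1 := by positivity
  have hfin : ∀ X : ℝ, ∀ E : Set ℝ, E ⊆ Icc X (2 * X) → volume E ≠ ⊤ := fun X E hEs =>
    ne_top_of_le_ne_top (by rw [Real.volume_Icc]; exact ENNReal.ofReal_ne_top) (measure_mono hEs)
  have hCle : ∀ x : ℝ, C * Real.log x ^ 2 ≤ max C 0 * Real.log x ^ 2 := fun x =>
    mul_le_mul_of_nonneg_right (le_max_left _ _) (by positivity)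
  set w : ℝ := max C 0 * Real.log T ^ 2 + 1 with hw
  have hw0 : 0 < w := by positivity
  -- upper point
  obtain ⟨E1, hE1s, hE1m, hE1⟩ := hE T a5
  obtain ⟨t1, ht1, ht1', ht1E⟩ := exists_good (X := T) (a := T) (b := T + w) (m := C * Real.log T ^ 2)
    hE1m (hfin _ _ hE1s) (by have := hCle T; linarith) le_rfl (by nlinarith)
  have u1 := hE1 t1 ht1' ht1E
  have u2 := hN T t1 a2 (by rw [abs_le]; constructor <;> linarith [ht1.1, ht1.2, mul_pos hδ (show 0 < T by linarith)])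
  have m1 := hmono T t1 (by linarith) ht1.1
  obtain ⟨e, he⟩ : ∃ e, e = min ε 1 := ⟨_, rfl⟩
  rw [← he] at u1 u2 hmin hmin1 hmin0
  have hmb : |m * NN q t1 - m * NN q T| ≤ |m| * (e * NN q T) := by
    rw [← mul_sub, abs_mul]
    exact mul_le_mul_of_nonneg_left u2 (abs_nonneg _)
  have p0 : e * NN q T ≤ 1 * NN q T := mul_le_mul_of_nonneg_right hmin1 hNT.le
  have p1 : NN q t1 ≤ 2 * NN q T := by
    have := (abs_le.1 u2).2
    linarith
  have p3 : e * NN q t1 ≤ e * (2 * NN q T) := mul_le_mul_of_nonneg_left p1 hmin0.le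
  have p5 : (|m| + 2) * (e * NN q T) = |m| * (e * NN q T) + e * (2 * NN q T) := by ring
  have key : M T ≤ m * NN q T + (|m| + 2) * (e * NN q T) := by
    have h21 := (abs_le.1 hmb).2
    have h22 : (m + e) * NN q t1 = m * NN q t1 + e * NN q t1 := by ring
    rw [p5]
    linarith
  have h10 : (|m| + 2) * (e * NN q T) ≤ (|m| + 2) * (ε * NN q T) := by gcongr
  have h11 : (|m| + 2) * ε ≤ ε0 := by
    rw [hε, mul_div_assoc', div_le_iff₀ (by positivity)]
    nlinarith [abs_nonneg m]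
  have h12 : (|m| + 2) * ε * NN q T ≤ ε0 * NN q T := mul_le_mul_of_nonneg_right h11 hNT.le
  have h13 : (m + ε0) * NN q T = m * NN q T + ε0 * NN q T := by ring
  have h14 : (|m| + 2) * (ε * NN q T) = (|m| + 2) * ε * NN q T := by ring
  rw [h13]
  linarith

theorem inf_step {M : ℝ → ℝ} {q : ℕ} {m : ℝ} (hmono : ∀ S T : ℝ, 0 ≤ S → S ≤ T → M S ≤ M T)
    (h : ∀ ε : ℝ, 0 < ε → ∃ C X0 : ℝ, ∀ X : ℝ, X0 ≤ X → ∃ E : Set ℝ,
      E ⊆ Icc X (2 * X) ∧ volume.real E ≤ C * Real.log X ^ 2 ∧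
      ∀ T ∈ Icc X (2 * X), T ∉ E → (m - ε) * NN q T ≤ M T) :
    ∀ ε : ℝ, 0 < ε → ∀ᶠ T : ℝ in atTop, (m - ε) * NN q T ≤ M T := by
  intro ε0 hε0
  set ε : ℝ := ε0 / (2 * (|m| + 3)) with hε
  have hεp : 0 < ε := by positivity
  obtain ⟨C, X0, hE⟩ := h (min ε 1) (by positivity)
  obtain ⟨δ, T1, hδ, hδ4, hT1, hN⟩ := NN_slow q (ε := min ε 1) (by positivity)
  have hev := log_sq_small (max C 0) hδ
  obtain ⟨T2, hT2⟩ := eventually_atTop.1 hev
  refine eventually_atTop.2 ⟨max (max (2 * max X0 1) T1) (max T2 1 * 2), fun T hT => ?_⟩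
  have a1 : 2 * max X0 1 ≤ T := ((le_max_left _ _).trans (le_max_left _ _)).trans hT
  have a2 : T1 ≤ T := ((le_max_right _ _).trans (le_max_left _ _)).trans hT
  have a3 : max T2 1 * 2 ≤ T := (le_max_right _ _).trans hT
  have a4 : T2 ≤ T := by have := le_max_left T2 1; have := le_max_right T2 1; linarith
  have a6 : X0 ≤ T / 2 := by have := le_max_left X0 1; linarith
  have a7 : 1 ≤ T / 2 := by have := le_max_right X0 1; linarith
  have hT4 : 4 ≤ T := hT1.trans a2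
  have hsm := hT2 T a4
  have hNT : 0 < NN q T := NN_pos q (by linarith)
  have hmin : min ε 1 ≤ ε := min_le_left _ _
  have hmin1 : min ε 1 ≤ 1 := min_le_right _ _
  have hmin0 : 0 < min ε 1 := by positivity
  have hfin : ∀ X : ℝ, ∀ E : Set ℝ, E ⊆ Icc X (2 * X) → volume E ≠ ⊤ := fun X E hEs =>
    ne_top_of_le_ne_top (by rw [Real.volume_Icc]; exact ENNReal.ofReal_ne_top) (measure_mono hEs)
  have hCle : ∀ x : ℝ, C * Real.log x ^ 2 ≤ max C 0 * Real.log x ^ 2 := fun x =>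
    mul_le_mul_of_nonneg_right (le_max_left _ _) (by positivity)
  set w : ℝ := max C 0 * Real.log T ^ 2 + 1 with hw
  have hw0 : 0 < w := by positivity
  -- lower point
  obtain ⟨E2, hE2s, hE2m, hE2⟩ := hE (T / 2) a6
  have hlog2 : Real.log (T / 2) ^ 2 ≤ Real.log T ^ 2 := by
    refine pow_le_pow_left₀ (Real.log_nonneg a7) (Real.log_le_log (by linarith) (by linarith)) 2
  have hm2 : C * Real.log (T / 2) ^ 2 < T - (T - w) := by
    have := hCle (T / 2)
    have h9 : max C 0 * Real.log (T / 2) ^ 2 ≤ max C 0 * Real.log T ^ 2 :=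
      mul_le_mul_of_nonneg_left hlog2 (le_max_right _ _)
    linarith
  obtain ⟨t2, ht2, ht2', ht2E⟩ := exists_good (X := T / 2) (a := T - w) (b := T) (m := C * Real.log (T / 2) ^ 2)
    hE2m (hfin _ _ hE2s) hm2 (by nlinarith) (by linarith)
  have v1 := hE2 t2 ht2' ht2E
  have v2 := hN T t2 a2 (by rw [abs_le]; constructor <;> linarith [ht2.1, ht2.2, mul_pos hδ (show 0 < T by linarith)])
  have m2 := hmono t2 T (by nlinarith [ht2'.1]) ht2.2
  obtain ⟨e, he⟩ : ∃ e, e = min ε 1 := ⟨_, rfl⟩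
  rw [← he] at v1 v2 hmin hmin1 hmin0
  have hmb2 : |m * NN q t2 - m * NN q T| ≤ |m| * (e * NN q T) := by
    rw [← mul_sub, abs_mul]
    exact mul_le_mul_of_nonneg_left v2 (abs_nonneg _)
  have p0 : e * NN q T ≤ 1 * NN q T := mul_le_mul_of_nonneg_right hmin1 hNT.le
  have p2 : NN q t2 ≤ 2 * NN q T := by
    have := (abs_le.1 v2).2
    linarith
  have p4 : e * NN q t2 ≤ e * (2 * NN q T) := mul_le_mul_of_nonneg_left p2 hmin0.le
  have p5 : (|m| + 2) * (e * NN q T) = |m| * (e * NN q T) + e * (2 * NN q T) := by ring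
  have key : m * NN q T - (|m| + 2) * (e * NN q T) ≤ M T := by
    have h21 := (abs_le.1 hmb2).1
    have h22 : (m - e) * NN q t2 = m * NN q t2 - e * NN q t2 := by ring
    rw [p5]
    linarith
  have h10 : (|m| + 2) * (e * NN q T) ≤ (|m| + 2) * (ε * NN q T) := by gcongr
  have h11 : (|m| + 2) * ε ≤ ε0 := by
    rw [hε, mul_div_assoc', div_le_iff₀ (by positivity)]
    nlinarith [abs_nonneg m]
  have h12 : (|m| + 2) * ε * NN q T ≤ ε0 * NN q T := mul_le_mul_of_nonneg_right h11 hNT.le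
  have h13 : (m - ε0) * NN q T = m * NN q T - ε0 * NN q T := by ring
  have h14 : (|m| + 2) * (ε * NN q T) = (|m| + 2) * ε * NN q T := by ring
  rw [h13]
  linarith

end Pool.Agent.R446.ED
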