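import Pool.Agent.R446.ED.Main
import Pool.Agent.R446.ED.Boot
import Pool.Agent.R446.ED.Step

set_option autoImplicit false

/-! Limits: the unshifted moment is squeezed by one shifted moment. -/

namespace Pool.Agent.R446.ED

open Complex MeasureTheory Filter Topology Set Pool.Agent.TH535.SM Pool.Agent.R446.KR
open Pool.Agent.Results.MP_069854_nt
open scoped FourierTransform ComplexConjugate ContDiff

noncomputable section

/-- the twisted shifted moment -/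
def Rr (k : ℕ) (α T : ℝ) : ℝ := (cexp ((k * α : ℝ) * I) * Cor (zk k) (α / Real.log T) T).re

lemma Rr_zero (k : ℕ) (T : ℝ) : Rr k 0 T = M (zk k) T := by
  unfold Rr
  rw [zero_div, Cor_zero, mul_zero, Complex.ofReal_zero, zero_mul, Complex.exp_zero, one_mul, Complex.ofReal_re]

/-- the contribution of the edges -/
def Ee (k : ℕ) (α : ℝ) : ℝ := 2 * EdgeBands.ak k * Vk k (fun ξ => Real.cos (α * ξ))

theorem two_terms (k : ℕ) (hk : 2 ≤ k) (a1 a2 c1 c2 : ℝ)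
    (hp : ∀ ξ : ℝ, |ξ| ≤ (k:ℝ) - 2 → 0 ≤ c1 * Real.cos (a1 * ξ) + c2 * Real.cos (a2 * ξ)) {ε : ℝ} (hε : 0 < ε) :
    ∃ C X0 : ℝ, ∀ X : ℝ, X0 ≤ X → ∃ E : Set ℝ,
      E ⊆ Icc X (2 * X) ∧ (volume : Measure ℝ).real E ≤ C * Real.log X ^ 2 ∧
      ∀ T ∈ Icc X (2 * X), T ∉ E →
        (c1 * Ee k a1 + c2 * Ee k a2) * NN (k ^ 2) T - ε * (M (zk k) (2 * T) + NN (k ^ 2) T) ≤
        c1 * Rr k a1 T + c2 * Rr k a2 T := by
  obtain ⟨C, X0, _, _, h⟩ := main1 k hk (Finset.univ : Finset (Fin 2)) ![a1, a2] ![c1, c2] (by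
    intro ξ hξ
    have := hp ξ hξ
    simpa [Fin.sum_univ_two] using this) hε
  refine ⟨C, X0, fun X hX => ?_⟩
  obtain ⟨E, _, e2, e3, e4⟩ := h X hX
  refine ⟨E, e2, e3, fun T hT hTE => ?_⟩
  have h5 := e4 T hT hTE
  simp only [Fin.sum_univ_two, Matrix.cons_val_zero, Matrix.cons_val_one] at h5
  unfold Ee Rr
  have e : (c1 * (2 * EdgeBands.ak k * Vk k (fun ξ => Real.cos (a1 * ξ))) +
      c2 * (2 * EdgeBands.ak k * Vk k (fun ξ => Real.cos (a2 * ξ)))) =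
      2 * EdgeBands.ak k * (c1 * Vk k (fun ξ => Real.cos (a1 * ξ)) + c2 * Vk k (fun ξ => Real.cos (a2 * ξ))) := by ring
  rw [e]
  exact h5

lemma NN_two (q : ℕ) {T : ℝ} (hT : 2 ≤ T) : NN q (2 * T) ≤ 2 ^ (q + 1) * NN q T := by
  unfold NN
  have h1 : 0 ≤ Real.log T := Real.log_nonneg (by linarith)
  have h2 : Real.log (2 * T) ≤ 2 * Real.log T := by
    rw [Real.log_mul (by norm_num) (by linarith)]
    have := Real.log_le_log (by norm_num) hT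
    linarith
  have h3 : 0 ≤ Real.log (2 * T) := Real.log_nonneg (by linarith)
  calc 2 * T * Real.log (2 * T) ^ q ≤ 2 * T * (2 * Real.log T) ^ q := by gcongr
    _ = 2 ^ (q + 1) * (T * Real.log T ^ q) := by rw [mul_pow, pow_succ]; ring

lemma kap_pos {k : ℕ} {α : ℝ} (hα : |α| * ((k:ℝ) - 2) < Real.pi / 2) (hk : (2:ℝ) ≤ k) :
    0 < Real.cos (((k:ℝ) - 2) * α) := by
  refine Real.cos_pos_of_mem_Ioo ?_
  have h1 : |((k:ℝ) - 2) * α| < Real.pi / 2 := by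
    rw [abs_mul, abs_of_nonneg (by linarith : 0 ≤ (k:ℝ) - 2)]; linarith
  have := abs_lt.1 h1
  exact ⟨this.1, this.2⟩

lemma cos_ge {k : ℕ} {α : ℝ} (hα : |α| * ((k:ℝ) - 2) < Real.pi / 2) (hk : (2:ℝ) ≤ k) {ξ : ℝ}
    (hξ : |ξ| ≤ (k:ℝ) - 2) : Real.cos (((k:ℝ) - 2) * α) ≤ Real.cos (α * ξ) := by
  rw [← Real.cos_abs (((k:ℝ) - 2) * α), ← Real.cos_abs (α * ξ)]
  have e : |((k:ℝ) - 2) * α| = |α| * ((k:ℝ) - 2) := by
    rw [abs_mul, abs_of_nonneg (by linarith : 0 ≤ (k:ℝ) - 2)]; ring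
  have h1 : |α * ξ| ≤ |α| * ((k:ℝ) - 2) := by rw [abs_mul]; gcongr
  rw [e]
  have hpi := Real.pi_pos
  exact Real.cos_le_cos_of_nonneg_of_le_pi (abs_nonneg _) (by linarith) h1

/-- boundedness -/
theorem bounded (k : ℕ) (hk : 2 ≤ k) {α b : ℝ} (hα : |α| * ((k:ℝ) - 2) < Real.pi / 2)
    (hb : ∀ᶠ T : ℝ in atTop, Rr k α T ≤ b * NN (k ^ 2) T) :
    ∃ A T0 : ℝ, 0 ≤ A ∧ ∀ T : ℝ, T0 ≤ T → M (zk k) T ≤ A * NN (k ^ 2) T := by
  have hk2 : (2:ℝ) ≤ k := by exact_mod_cast hk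
  obtain ⟨κ, hκ⟩ : ∃ κ, κ = Real.cos (((k:ℝ) - 2) * α) := ⟨_, rfl⟩
  have hκ0 : 0 < κ := by rw [hκ]; exact kap_pos hα hk2
  obtain ⟨G, D⟩ := zk_hz k 1 le_rfl
  obtain ⟨C0, p, _, hMu⟩ := M_upper D
  obtain ⟨T1, hT1⟩ := eventually_atTop.1 hb
  refine boot (M := M (zk k)) (q := k ^ 2) (p := p) (C0 := C0)
    (C1 := (b + κ + |Ee k α - κ * Ee k 0|) / κ) (fun S T _ h => M_mono D h) (fun T hT => M_nonneg _ hT) hMu ?_
  intro ε hε
  obtain ⟨C, X0, h⟩ := two_terms k hk α 0 1 (-κ) (by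
    intro ξ hξ
    have := cos_ge hα hk2 hξ
    rw [← hκ] at this
    simp only [zero_mul, Real.cos_zero, mul_one, one_mul]
    linarith) (ε := κ * min ε 1) (by positivity)
  refine ⟨C, max X0 (max T1 (Real.exp 1)), fun X hX => ?_⟩
  obtain ⟨E, e1, e2, e3⟩ := h X ((le_max_left _ _).trans hX)
  refine ⟨E, e1, e2, fun T hT hTE => ?_⟩
  have hTT1 : T1 ≤ T := ((le_max_left _ _).trans ((le_max_right _ _).trans hX)).trans hT.1
  have hTe : Real.exp 1 ≤ T := ((le_max_right _ _).trans ((le_max_right _ _).trans hX)).trans hT.1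
  have h5 := e3 T hT hTE
  rw [Rr_zero] at h5
  have h6 := hT1 T hTT1
  have hT0 : 0 < T := lt_of_lt_of_le (Real.exp_pos 1) hTe
  have hN : 0 < NN (k ^ 2) T := lt_of_lt_of_le hT0 (NN_ge _ hTe)
  have hM2 := M_nonneg (zk k) (T := 2 * T) (by linarith)
  have h7 : κ * min ε 1 * M (zk k) (2 * T) ≤ κ * ε * M (zk k) (2 * T) := by gcongr; exact min_le_left _ _
  have h8 : κ * min ε 1 * NN (k ^ 2) T ≤ κ * 1 * NN (k ^ 2) T := by gcongr; exact min_le_right _ _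
  have h9 : -|Ee k α - κ * Ee k 0| * NN (k ^ 2) T ≤ (Ee k α - κ * Ee k 0) * NN (k ^ 2) T :=
    mul_le_mul_of_nonneg_right (neg_abs_le _) hN.le
  have h10 : κ * M (zk k) T ≤ κ * ((b + κ + |Ee k α - κ * Ee k 0|) / κ * NN (k ^ 2) T + ε * M (zk k) (2 * T)) := by
    have e : κ * ((b + κ + |Ee k α - κ * Ee k 0|) / κ * NN (k ^ 2) T + ε * M (zk k) (2 * T)) =
      (b + κ + |Ee k α - κ * Ee k 0|) * NN (k ^ 2) T + κ * ε * M (zk k) (2 * T) := by field_simp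
    rw [e]
    linarith
  exact le_of_mul_le_mul_left h10 hκ0

/-- the upper bound -/
theorem upper (k : ℕ) (hk : 2 ≤ k) {α b : ℝ} (hα : |α| * ((k:ℝ) - 2) < Real.pi / 2)
    (hb : ∀ ε : ℝ, 0 < ε → ∀ᶠ T : ℝ in atTop, Rr k α T ≤ (b + ε) * NN (k ^ 2) T) {ε : ℝ} (hε : 0 < ε) :
    ∀ᶠ T : ℝ in atTop, M (zk k) T ≤ ((b - Ee k α) / Real.cos (((k:ℝ) - 2) * α) + Ee k 0 + ε) * NN (k ^ 2) T := by
  have hk2 : (2:ℝ) ≤ k := by exact_mod_cast hk
  obtain ⟨κ, hκ⟩ : ∃ κ, κ = Real.cos (((k:ℝ) - 2) * α) := ⟨_, rfl⟩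
  have hκ0 : 0 < κ := by rw [hκ]; exact kap_pos hα hk2
  obtain ⟨A, T0, hA, hT0⟩ := bounded k hk hα (hb 1 one_pos)
  obtain ⟨G, D⟩ := zk_hz k 1 le_rfl
  rw [← hκ]
  refine sup_step (M := M (zk k)) (q := k ^ 2) (fun S T _ h => M_mono D h) ?_ ε hε
  intro ε hε
  obtain ⟨η, hη⟩ : ∃ η, η = κ * ε / (2 + A * 2 ^ (k ^ 2 + 1)) := ⟨_, rfl⟩
  have hη0 : 0 < η := by rw [hη]; positivity
  have hη1 : η * (2 + A * 2 ^ (k ^ 2 + 1)) = κ * ε := by rw [hη]; field_simp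
  obtain ⟨T1, hT1⟩ := eventually_atTop.1 (hb η hη0)
  obtain ⟨C, X0, h⟩ := two_terms k hk α 0 1 (-κ) (by
    intro ξ hξ
    have := cos_ge hα hk2 hξ
    rw [← hκ] at this
    simp only [zero_mul, Real.cos_zero, mul_one, one_mul]
    linarith) (ε := η) hη0
  refine ⟨C, max (max X0 (max T0 2)) (max T1 (Real.exp 1)), fun X hX => ?_⟩
  obtain ⟨E, e1, e2, e3⟩ := h X ((le_max_left _ _).trans ((le_max_left _ _).trans hX))
  refine ⟨E, e1, e2, fun T hT hTE => ?_⟩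
  have hTT0 : T0 ≤ T := ((le_max_left _ _).trans ((le_max_right _ _).trans ((le_max_left _ _).trans hX))).trans hT.1
  have hTT2 : 2 ≤ T := ((le_max_right _ _).trans ((le_max_right _ _).trans ((le_max_left _ _).trans hX))).trans hT.1
  have hTT1 : T1 ≤ T := ((le_max_left _ _).trans ((le_max_right _ _).trans hX)).trans hT.1
  have hTe : Real.exp 1 ≤ T := ((le_max_right _ _).trans ((le_max_right _ _).trans hX)).trans hT.1
  have h5 := e3 T hT hTE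
  rw [Rr_zero] at h5
  have h6 := hT1 T hTT1
  have hN : 0 < NN (k ^ 2) T := lt_of_lt_of_le (by linarith) (NN_ge _ hTe)
  have h7 : M (zk k) (2 * T) ≤ A * (2 ^ (k ^ 2 + 1) * NN (k ^ 2) T) := by
    refine (hT0 (2 * T) (by linarith)).trans ?_
    exact mul_le_mul_of_nonneg_left (NN_two _ hTT2) hA
  have h8 : η * M (zk k) (2 * T) ≤ η * (A * (2 ^ (k ^ 2 + 1) * NN (k ^ 2) T)) := mul_le_mul_of_nonneg_left h7 hη0.le
  have h10 : κ * M (zk k) T ≤ κ * (((b - Ee k α) / κ + Ee k 0 + ε) * NN (k ^ 2) T) := by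
    have e : κ * (((b - Ee k α) / κ + Ee k 0 + ε) * NN (k ^ 2) T) =
      (b - Ee k α + κ * Ee k 0) * NN (k ^ 2) T + κ * ε * NN (k ^ 2) T := by field_simp
    rw [e, ← hη1]
    have e2 : η * (2 + A * 2 ^ (k ^ 2 + 1)) * NN (k ^ 2) T = 2 * (η * NN (k ^ 2) T) +
      η * (A * (2 ^ (k ^ 2 + 1) * NN (k ^ 2) T)) := by ring
    rw [e2]
    linarith
  exact le_of_mul_le_mul_left h10 hκ0

/-- the lower bound -/
theorem lower' (k : ℕ) (hk : 2 ≤ k) {α b : ℝ} {A T0 : ℝ} (hA : 0 ≤ A)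
    (hT0 : ∀ T : ℝ, T0 ≤ T → M (zk k) T ≤ A * NN (k ^ 2) T)
    (hb : ∀ ε : ℝ, 0 < ε → ∀ᶠ T : ℝ in atTop, (b - ε) * NN (k ^ 2) T ≤ Rr k α T) {ε : ℝ} (hε : 0 < ε) :
    ∀ᶠ T : ℝ in atTop, (b - Ee k α + Ee k 0 - ε) * NN (k ^ 2) T ≤ M (zk k) T := by
  obtain ⟨G, D⟩ := zk_hz k 1 le_rfl
  refine inf_step (M := M (zk k)) (q := k ^ 2) (fun S T _ h => M_mono D h) ?_ ε hε
  intro ε hε
  obtain ⟨η, hη⟩ : ∃ η, η = ε / (2 + A * 2 ^ (k ^ 2 + 1)) := ⟨_, rfl⟩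
  have hη0 : 0 < η := by rw [hη]; positivity
  have hη1 : η * (2 + A * 2 ^ (k ^ 2 + 1)) = ε := by rw [hη]; field_simp
  obtain ⟨T1, hT1⟩ := eventually_atTop.1 (hb η hη0)
  obtain ⟨C, X0, h⟩ := two_terms k hk 0 α 1 (-1) (by
    intro ξ hξ
    simp only [zero_mul, Real.cos_zero, mul_one]
    linarith [Real.cos_le_one (α * ξ)]) (ε := η) hη0
  refine ⟨C, max (max X0 (max T0 2)) (max T1 (Real.exp 1)), fun X hX => ?_⟩
  obtain ⟨E, e1, e2, e3⟩ := h X ((le_max_left _ _).trans ((le_max_left _ _).trans hX))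
  refine ⟨E, e1, e2, fun T hT hTE => ?_⟩
  have hTT0 : T0 ≤ T := ((le_max_left _ _).trans ((le_max_right _ _).trans ((le_max_left _ _).trans hX))).trans hT.1
  have hTT2 : 2 ≤ T := ((le_max_right _ _).trans ((le_max_right _ _).trans ((le_max_left _ _).trans hX))).trans hT.1
  have hTT1 : T1 ≤ T := ((le_max_left _ _).trans ((le_max_right _ _).trans hX)).trans hT.1
  have hTe : Real.exp 1 ≤ T := ((le_max_right _ _).trans ((le_max_right _ _).trans hX)).trans hT.1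
  have h5 := e3 T hT hTE
  rw [Rr_zero] at h5
  have h6 := hT1 T hTT1
  have hN : 0 < NN (k ^ 2) T := lt_of_lt_of_le (by linarith) (NN_ge _ hTe)
  have h7 : M (zk k) (2 * T) ≤ A * (2 ^ (k ^ 2 + 1) * NN (k ^ 2) T) := by
    refine (hT0 (2 * T) (by linarith)).trans ?_
    exact mul_le_mul_of_nonneg_left (NN_two _ hTT2) hA
  have h8 : η * M (zk k) (2 * T) ≤ η * (A * (2 ^ (k ^ 2 + 1) * NN (k ^ 2) T)) := mul_le_mul_of_nonneg_left h7 hη0.le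
  have e2 : ε * NN (k ^ 2) T = 2 * (η * NN (k ^ 2) T) + η * (A * (2 ^ (k ^ 2 + 1) * NN (k ^ 2) T)) := by
    rw [← hη1]; ring
  linarith

end

end Pool.Agent.R446.ED
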