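import Pool.Agent.R446.ED.Tail

set_option autoImplicit false

/-! Cosine polynomials nonnegative off the edges. -/

namespace Pool.Agent.R446.ED

open Complex MeasureTheory Filter Topology Set Pool.Agent.TH535.SM Pool.Agent.R446.KR
open scoped FourierTransform ComplexConjugate

noncomputable section

variable {z : ℝ → ℂ} {G : ℂ → ℂ} {u K : ℕ}

theorem lower (hz : ∀ u : ℕ, 1 ≤ u → ∃ G, Dat z G u K) (hs : ∀ t, ‖z (-t)‖ = ‖z t‖) {ι : Type} (s : Finset ι)
    (α c : ι → ℝ) {Φ ψ : ℝ → ℝ} (hc : Continuous Φ) (hi : Integrable Φ) (hΦ : Rap Φ)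
    (hinv : ∀ ξ : ℝ, ∫ β : ℝ, Φ β * Real.cos (β * ξ) = 2 * Real.pi * ψ ξ)
    (hψc : Continuous ψ) {b : ℝ} (hψb : ∀ ξ, |ψ ξ| ≤ b) {η0 : ℝ} (hη0 : 0 ≤ η0)
    (h1 : ∀ ξ : ℝ, |ξ| ≤ K + 1 → ψ ξ ≤ (∑ j ∈ s, c j * Real.cos (α j * ξ)) + η0)
    (h2 : ∀ ξ : ℝ, ψ ξ ≤ (∑ j ∈ s, c j * Real.cos (α j * ξ)) + ∑ j ∈ s, |c j|) {ε : ℝ} (hε : 0 < ε) :
    ∃ C T0 : ℝ, 0 ≤ C ∧ 1 ≤ T0 ∧ ∀ T : ℝ, T0 ≤ T →
      1 / (2 * Real.pi) * (∫ β, Φ β * (cexp ((K * β : ℝ) * I) * Cor z (β / Real.log T) T).re) -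
        η0 * M z T - ε * M z (2 * T) - C * (1 + B z T) ≤
      ∑ j ∈ s, c j * (cexp ((K * α j : ℝ) * I) * Cor z (α j / Real.log T) T).re := by
  classical
  obtain ⟨N1, hN1⟩ : ∃ N1, N1 = ∑ j ∈ s, |c j| := ⟨_, rfl⟩
  obtain ⟨A1, hA1⟩ : ∃ A1, A1 = ∑ j ∈ s, |α j| := ⟨_, rfl⟩
  have hN0 : 0 ≤ N1 := by rw [hN1]; exact Finset.sum_nonneg fun j _ => by positivity
  have hA0 : 0 ≤ A1 := by rw [hA1]; exact Finset.sum_nonneg fun j _ => by positivity
  obtain ⟨G, D⟩ := hz 2 (by norm_num)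
  obtain ⟨Cr, hCr, hr⟩ := out_right D (δ := 1 / 2) (by norm_num) (by norm_num)
  obtain ⟨Cl, hCl, hl⟩ := out_left D (δ := 1 / 2) (by norm_num) (by norm_num)
  obtain ⟨η, hη⟩ : ∃ η, η = min (1 / 2) (ε / (4 * (N1 + η0 + 1))) := ⟨_, rfl⟩
  have hη0' : 0 < η := by rw [hη]; positivity
  have hη1 : η < 1 := by rw [hη]; exact lt_of_le_of_lt (min_le_left _ _) (by norm_num)
  have hη2 : (N1 + η0) * η ≤ ε / 4 := by
    have h1 : η ≤ ε / (4 * (N1 + η0 + 1)) := by rw [hη]; exact min_le_right _ _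
    rw [le_div_iff₀ (by positivity)] at h1
    nlinarith
  obtain ⟨C1, T1, hC1, hT1, q1⟩ := spec_close D hη0' hη1
  obtain ⟨C2, T2, hC2, hT2, q2⟩ := smooth_close D hs hc hi hΦ hinv (ε := ε / 2) (by positivity)
  refine ⟨N1 * C1 + η0 * C1 + N1 * (Cl + Cr) + C2, max (max T1 T2) (Real.exp (A1 + 1)), by positivity,
    le_max_of_le_left (le_max_of_le_left hT1), fun T hT => ?_⟩
  have hTT1 : T1 ≤ T := ((le_max_left _ _).trans (le_max_left _ _)).trans hT
  have hTT2 : T2 ≤ T := ((le_max_right _ _).trans (le_max_left _ _)).trans hT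
  have hTe : Real.exp (A1 + 1) ≤ T := (le_max_right _ _).trans hT
  have hTp : 1 ≤ T := hT1.trans hTT1
  have hT0 : 0 < T := by linarith
  have hL : A1 + 1 ≤ Real.log T := by rwa [Real.le_log_iff_exp_le hT0]
  have q2T := q2 T hTT2
  obtain ⟨L, hLd⟩ : ∃ L, L = Real.log T := ⟨_, rfl⟩
  rw [← hLd] at hL q2T ⊢
  have hL0 : 0 < L := by linarith
  have hpi := Real.pi_pos
  have hdec := Fn_dec D.pg hTp (r := 0) (by simp) (by positivity)
  have hM := M_nonneg z (T := T) (by linarith)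
  have hM2 := M_nonneg z (T := 2 * T) (by linarith)
  have hMM : M z T ≤ M z (2 * T) := M_mono D (by linarith)
  have hB := B_nonneg z T
  have ha : ∀ j ∈ s, |α j / L| ≤ 1 := by
    intro j hj
    rw [abs_div, abs_of_pos hL0, div_le_one hL0]
    have : |α j| ≤ A1 := by rw [hA1]; exact Finset.single_le_sum (f := fun j => |α j|) (fun _ _ => abs_nonneg _) hj
    linarith
  have hl' := hl T hTp
  have hr' := hr T hTp
  rw [← hLd] at hl' hr'
  set F := Fn G T 0 with hF
  -- total mass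
  have hI : ∫ w, ‖𝓕 F w‖ ^ 2 ≤ (1 + η) * M z T + C1 * (1 + B z T) := by
    have h4 := q1 T hTT1 0 0 (by simp)
    have e1 : Sp F 0 0 = ∫ w, ‖𝓕 F w‖ ^ 2 := by
      unfold Sp
      refine integral_congr_ae (Eventually.of_forall fun w => ?_)
      simp
    have e2 : (cexp ((0:ℝ) * I) * Cor z 0 T).re = M z T := by
      simp only [ofReal_zero, zero_mul, Complex.exp_zero, one_mul]
      unfold Cor M
      have e : ∫ t in (0:ℝ)..T, z (t + 0) * conj (z (t + -0)) =
          ((∫ t in (0:ℝ)..T, ‖z t‖ ^ 2 : ℝ) : ℂ) := by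
        rw [← intervalIntegral.integral_ofReal]
        refine intervalIntegral.integral_congr fun t _ => ?_
        simp only [neg_zero, add_zero]
        rw [Complex.mul_conj, Complex.normSq_eq_norm_sq]
      rw [e, Complex.ofReal_re]
    rw [e1, e2] at h4
    have := (abs_le.1 h4).1
    linarith
  -- mass outside
  have hout : ms F (Ioo (-((K + 1 / 2) * L / (2 * Real.pi))) (1 / 2 * L / (2 * Real.pi)))ᶜ ≤ Cl + Cr := by
    refine (ms_union hdec (A1 := Iic (-((K + 1 / 2) * L / (2 * Real.pi))))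
      (A2 := Ici (1 / 2 * L / (2 * Real.pi))) measurableSet_Iic measurableSet_Ici ?_).trans
      (add_le_add hl' hr')
    intro w hw
    simp only [mem_compl_iff, mem_Ioo, not_and_or, not_lt] at hw
    exact hw
  set J := Ioo (-((K + 1 / 2) * L / (2 * Real.pi))) (1 / 2 * L / (2 * Real.pi)) with hJ
  -- the cosine polynomial
  obtain ⟨p, hp⟩ : ∃ p : ℝ → ℝ, p = fun ξ => ∑ j ∈ s, c j * Real.cos (α j * ξ) := ⟨_, rfl⟩
  have hpc : Continuous p := by rw [hp]; fun_prop
  have hpb : ∀ ξ, |p ξ| ≤ N1 := by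
    intro ξ
    rw [hp, hN1]
    refine (Finset.abs_sum_le_sum_abs _ _).trans (Finset.sum_le_sum fun j _ => ?_)
    rw [abs_mul]
    exact mul_le_of_le_one_right (abs_nonneg _) (Real.abs_cos_le_one _)
  have hFi := (planch hdec).1
  have hFc := ft_cont hdec
  have hmulI : ∀ (h : ℝ → ℝ) (b : ℝ), Continuous h → (∀ ξ, |h ξ| ≤ b) →
      Integrable (fun w : ℝ => h (K + 4 * Real.pi * w / L) * ‖𝓕 F w‖ ^ 2) := by
    intro h b hh hb
    refine (hFi.const_mul b).mono' ?_ (Eventually.of_forall fun w => ?_)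
    · have : Continuous (fun w : ℝ => h (K + 4 * Real.pi * w / L) * ‖𝓕 F w‖ ^ 2) :=
        (hh.comp (by fun_prop)).mul (by fun_prop)
      exact this.aestronglyMeasurable
    · rw [norm_mul, Real.norm_eq_abs, Real.norm_of_nonneg (by positivity : (0:ℝ) ≤ ‖𝓕 F w‖ ^ 2)]
      exact mul_le_mul_of_nonneg_right (hb _) (by positivity)
  have hpI := hmulI p N1 hpc hpb
  have hψI := hmulI ψ b hψc hψb
  -- spectral sum
  have hsum : (∫ w, p (K + 4 * Real.pi * w / L) * ‖𝓕 F w‖ ^ 2) - N1 * (η * M z T + C1 * (1 + B z T)) ≤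
      ∑ j ∈ s, c j * (cexp ((K * α j : ℝ) * I) * Cor z (α j / L) T).re := by
    have e1 : ∫ w, p (K + 4 * Real.pi * w / L) * ‖𝓕 F w‖ ^ 2 =
        ∑ j ∈ s, c j * Sp F (α j / L) (K * α j) := by
      have e2 : ∀ w : ℝ, p (K + 4 * Real.pi * w / L) * ‖𝓕 F w‖ ^ 2 = ∑ j ∈ s, c j *
          (Real.cos (4 * Real.pi * (α j / L) * w + K * α j) * ‖𝓕 F w‖ ^ 2) := by
        intro w
        rw [hp]
        simp only
        rw [Finset.sum_mul]
        refine Finset.sum_congr rfl fun j _ => ?_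
        have : α j * (K + 4 * Real.pi * w / L) = 4 * Real.pi * (α j / L) * w + K * α j := by
          field_simp; ring
        rw [this]; ring
      simp_rw [e2]
      rw [integral_finsetSum _ (fun j _ => (Sp_int hdec _ _).const_mul _)]
      exact Finset.sum_congr rfl fun j _ => integral_const_mul _ _
    rw [e1, hN1, Finset.sum_mul, ← Finset.sum_sub_distrib]
    refine Finset.sum_le_sum fun j hj => ?_
    have h4 := q1 T hTT1 (α j / L) (K * α j) (ha j hj)
    have h5 : |c j * ((cexp ((K * α j : ℝ) * I) * Cor z (α j / L) T).re - Sp F (α j / L) (K * α j))| ≤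
        |c j| * (η * M z T + C1 * (1 + B z T)) := by
      rw [abs_mul]
      exact mul_le_mul_of_nonneg_left h4 (abs_nonneg _)
    have h6 := (abs_le.1 h5).1
    linarith
  -- comparison
  have hdiff : (∫ w, ψ (K + 4 * Real.pi * w / L) * ‖𝓕 F w‖ ^ 2) -
      (∫ w, p (K + 4 * Real.pi * w / L) * ‖𝓕 F w‖ ^ 2) ≤ η0 * (∫ w, ‖𝓕 F w‖ ^ 2) + N1 * (Cl + Cr) := by
    rw [← integral_sub hψI hpI]
    have hdI : Integrable (fun w : ℝ => ψ (K + 4 * Real.pi * w / L) * ‖𝓕 F w‖ ^ 2 -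
      p (K + 4 * Real.pi * w / L) * ‖𝓕 F w‖ ^ 2) := hψI.sub hpI
    rw [← integral_add_compl (s := J) measurableSet_Ioo hdI]
    have r1 : ∫ w in J, (ψ (K + 4 * Real.pi * w / L) * ‖𝓕 F w‖ ^ 2 - p (K + 4 * Real.pi * w / L) * ‖𝓕 F w‖ ^ 2) ≤
        η0 * ∫ w, ‖𝓕 F w‖ ^ 2 := by
      calc _ ≤ ∫ w in J, η0 * ‖𝓕 F w‖ ^ 2 := by
            refine setIntegral_mono_on hdI.integrableOn (hFi.const_mul _).integrableOn
              measurableSet_Ioo fun w hw => ?_
            rw [← sub_mul]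
            refine mul_le_mul_of_nonneg_right ?_ (by positivity)
            have hξ1 : -(K + 1) < K + 4 * Real.pi * w / L := by
              have h2 : -((K + 1 / 2) * L / (2 * Real.pi)) * (4 * Real.pi / L) < w * (4 * Real.pi / L) :=
                mul_lt_mul_of_pos_right hw.1 (by positivity)
              have e3 : -((K + 1 / 2) * L / (2 * Real.pi)) * (4 * Real.pi / L) = -(2 * (K + 1 / 2)) := by
                field_simp; ring
              rw [e3] at h2
              have e4 : w * (4 * Real.pi / L) = 4 * Real.pi * w / L := by ring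
              rw [e4] at h2
              linarith
            have hξ2 : K + 4 * Real.pi * w / L < K + 1 := by
              have h2 : w * (4 * Real.pi / L) < 1 / 2 * L / (2 * Real.pi) * (4 * Real.pi / L) :=
                mul_lt_mul_of_pos_right hw.2 (by positivity)
              have e3 : 1 / 2 * L / (2 * Real.pi) * (4 * Real.pi / L) = 1 := by
                field_simp; ring
              rw [e3] at h2
              have e4 : w * (4 * Real.pi / L) = 4 * Real.pi * w / L := by ring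
              rw [e4] at h2
              linarith
            have h3 := h1 (K + 4 * Real.pi * w / L) (abs_le.2 ⟨hξ1.le, hξ2.le⟩)
            rw [hp]
            simp only
            linarith
        _ = η0 * ∫ w in J, ‖𝓕 F w‖ ^ 2 := integral_const_mul _ _
        _ ≤ _ := by
            refine mul_le_mul_of_nonneg_left ?_ hη0
            exact setIntegral_le_integral hFi (Eventually.of_forall fun w => by positivity)
    have r2 : ∫ w in Jᶜ, (ψ (K + 4 * Real.pi * w / L) * ‖𝓕 F w‖ ^ 2 - p (K + 4 * Real.pi * w / L) * ‖𝓕 F w‖ ^ 2) ≤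
        N1 * (Cl + Cr) := by
      calc _ ≤ ∫ w in Jᶜ, N1 * ‖𝓕 F w‖ ^ 2 := by
            refine setIntegral_mono_on hdI.integrableOn (hFi.const_mul _).integrableOn
              measurableSet_Ioo.compl fun w _ => ?_
            rw [← sub_mul]
            refine mul_le_mul_of_nonneg_right ?_ (by positivity)
            have h3 := h2 (K + 4 * Real.pi * w / L)
            rw [hp, hN1]
            simp only
            linarith
        _ = N1 * ms F Jᶜ := integral_const_mul _ _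
        _ ≤ _ := mul_le_mul_of_nonneg_left hout hN0
    exact add_le_add r1 r2
  -- end
  have k1 : 1 / (2 * Real.pi) * (∫ β, Φ β * (cexp ((K * β : ℝ) * I) * Cor z (β / L) T).re) ≤
      (∫ w, ψ (K + 4 * Real.pi * w / L) * ‖𝓕 F w‖ ^ 2) + (ε / 2 * M z (2 * T) + C2 * (1 + B z T)) := by
    have h4 := (abs_le.1 q2T).2
    have h5 : (∫ β, Φ β * (cexp ((K * β : ℝ) * I) * Cor z (β / L) T).re) ≤
      2 * Real.pi * (∫ w, ψ (K + 4 * Real.pi * w / L) * ‖𝓕 F w‖ ^ 2) + (ε / 2 * M z (2 * T) + C2 * (1 + B z T)) := by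
      linarith
    have h6 : 1 / (2 * Real.pi) * (∫ β, Φ β * (cexp ((K * β : ℝ) * I) * Cor z (β / L) T).re) ≤
      1 / (2 * Real.pi) * (2 * Real.pi * (∫ w, ψ (K + 4 * Real.pi * w / L) * ‖𝓕 F w‖ ^ 2) +
        (ε / 2 * M z (2 * T) + C2 * (1 + B z T))) := mul_le_mul_of_nonneg_left h5 (by positivity)
    have h7 : 1 / (2 * Real.pi) * (2 * Real.pi * (∫ w, ψ (K + 4 * Real.pi * w / L) * ‖𝓕 F w‖ ^ 2) +
        (ε / 2 * M z (2 * T) + C2 * (1 + B z T))) = (∫ w, ψ (K + 4 * Real.pi * w / L) * ‖𝓕 F w‖ ^ 2) +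
        1 / (2 * Real.pi) * (ε / 2 * M z (2 * T) + C2 * (1 + B z T)) := by
      field_simp
    have h8 : 1 / (2 * Real.pi) ≤ 1 := by
      rw [div_le_one (by positivity)]
      have := Real.pi_gt_three
      linarith
    have h9 : 1 / (2 * Real.pi) * (ε / 2 * M z (2 * T) + C2 * (1 + B z T)) ≤ 1 * (ε / 2 * M z (2 * T) + C2 * (1 + B z T)) :=
      mul_le_mul_of_nonneg_right h8 (by positivity)
    linarith
  have k2 : η0 * (∫ w, ‖𝓕 F w‖ ^ 2) ≤ η0 * ((1 + η) * M z T + C1 * (1 + B z T)) := mul_le_mul_of_nonneg_left hI hη0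
  have k3 : (N1 + η0) * η * M z T ≤ ε / 4 * M z (2 * T) := mul_le_mul hη2 hMM hM (by positivity)
  have k4 : 0 ≤ N1 * (Cl + Cr) * B z T := by positivity
  have k5 : 0 ≤ ε * M z (2 * T) := by positivity
  have k6 : (N1 * C1 + η0 * C1 + N1 * (Cl + Cr) + C2) * (1 + B z T) = N1 * (C1 * (1 + B z T)) + η0 * (C1 * (1 + B z T)) +
    N1 * (Cl + Cr) + N1 * (Cl + Cr) * B z T + C2 * (1 + B z T) := by ring
  have k7 : N1 * (η * M z T + C1 * (1 + B z T)) = N1 * η * M z T + N1 * (C1 * (1 + B z T)) := by ring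
  have k8 : η0 * ((1 + η) * M z T + C1 * (1 + B z T)) = η0 * M z T + η0 * η * M z T + η0 * (C1 * (1 + B z T)) := by ring
  have k9 : (N1 + η0) * η * M z T = N1 * η * M z T + η0 * η * M z T := by ring
  rw [k6]
  linarith

end

end Pool.Agent.R446.ED
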