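import Pool.Agent.R446.ED.Z

set_option autoImplicit false

/-! The positivity principle off the edges, for zeta. -/

namespace Pool.Agent.R446.ED

open Complex MeasureTheory Filter Topology Set Pool.Agent.TH535.SM Pool.Agent.R446.KR
open Pool.Agent.Results.MP_069854_nt
open scoped FourierTransform ComplexConjugate ContDiff

noncomputable section

lemma cos_lip (a b : ℝ) : |Real.cos a - Real.cos b| ≤ |a - b| := Real.abs_cos_sub_cos_le a b


lemma Vk_sum (k : ℕ) {ι : Type} (s : Finset ι) (α c : ι → ℝ) :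
    Vk k (fun ξ => ∑ j ∈ s, c j * Real.cos (α j * ξ)) = ∑ j ∈ s, c j * Vk k (fun ξ => Real.cos (α j * ξ)) := by
  have hg := gk_cont k
  unfold Vk
  have e : ∀ x : ℝ, gk k x * ∑ j ∈ s, c j * Real.cos (α j * (k - 2 * x)) =
      ∑ j ∈ s, c j * (gk k x * Real.cos (α j * (k - 2 * x))) := by
    intro x
    rw [Finset.mul_sum]
    exact Finset.sum_congr rfl fun j _ => by ring
  simp_rw [e]
  rw [intervalIntegral.integral_finsetSum]
  · exact Finset.sum_congr rfl fun j _ => intervalIntegral.integral_const_mul _ _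
  · intro j _
    exact (by fun_prop : Continuous fun x : ℝ => c j * (gk k x * Real.cos (α j * (k - 2 * x)))).intervalIntegrable _ _

lemma near_nonneg {a δ Λ : ℝ} (ha : 0 ≤ a) (hδ : 0 ≤ δ) (hΛ : 0 ≤ Λ) {p : ℝ → ℝ}
    (hlip : ∀ x y, |p x - p y| ≤ Λ * |x - y|) (hp : ∀ ξ, |ξ| ≤ a → 0 ≤ p ξ) {ξ : ℝ} (hξ : |ξ| ≤ a + 2 * δ) :
    -(2 * δ * Λ) ≤ p ξ := by
  set ξ' : ℝ := max (-a) (min a ξ) with hξ'
  have hx := abs_le.1 hξ
  have hn1 : |ξ'| ≤ a := by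
    rw [abs_le]
    refine ⟨le_max_left _ _, max_le (by linarith) (min_le_left _ _)⟩
  have hn2 : |ξ - ξ'| ≤ 2 * δ := by
    rw [hξ', abs_le]
    rcases le_total a ξ with h3 | h3
    · rw [min_eq_left h3, max_eq_right (by linarith)]
      constructor <;> linarith [hx.1, hx.2]
    · rw [min_eq_right h3]
      rcases le_total (-a) ξ with h4 | h4
      · rw [max_eq_right h4]; constructor <;> linarith
      · rw [max_eq_left h4]; constructor <;> linarith [hx.1, hx.2]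
  have h1 := hlip ξ ξ'
  have h2 := hp ξ' hn1
  have h3 : Λ * |ξ - ξ'| ≤ Λ * (2 * δ) := by gcongr
  have h4 := (abs_le.1 h1).1
  nlinarith

lemma zk_symm (k : ℕ) : ∀ t, ‖zk k (-t)‖ = ‖zk k t‖ := by
  intro t
  unfold zk ze
  rw [norm_pow, norm_pow]
  congr 1
  have e : (1 / 2 + ((-t : ℝ) : ℂ) * I : ℂ) = conj (1 / 2 + ((t : ℝ) : ℂ) * I) := by
    rw [map_add, map_mul, conj_I, Complex.conj_ofReal, map_div₀, map_one, map_ofNat]
    push_cast
    ring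
  rw [e, riemannZeta_conj, RCLike.norm_conj]

lemma NN_ge (q : ℕ) {T : ℝ} (hT : Real.exp 1 ≤ T) : T ≤ NN q T := by
  have hT0 : 0 < T := lt_of_lt_of_le (Real.exp_pos 1) hT
  have hL : 1 ≤ Real.log T := by rwa [Real.le_log_iff_exp_le hT0]
  unfold NN
  have h2 : (1:ℝ) ≤ Real.log T ^ q := one_le_pow₀ hL
  nlinarith

theorem main1 (k : ℕ) (hk : 2 ≤ k) {ι : Type} (s : Finset ι) (α c : ι → ℝ)
    (hp : ∀ ξ : ℝ, |ξ| ≤ (k:ℝ) - 2 → 0 ≤ ∑ j ∈ s, c j * Real.cos (α j * ξ)) {ε : ℝ} (hε : 0 < ε) :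
    ∃ C X0 : ℝ, 0 ≤ C ∧ 1 ≤ X0 ∧ ∀ X : ℝ, X0 ≤ X → ∃ E : Set ℝ,
      MeasurableSet E ∧ E ⊆ Icc X (2 * X) ∧ (volume : Measure ℝ).real E ≤ C * Real.log X ^ 2 ∧
      ∀ T ∈ Icc X (2 * X), T ∉ E →
        2 * EdgeBands.ak k * (∑ j ∈ s, c j * Vk k (fun ξ => Real.cos (α j * ξ))) * NN (k ^ 2) T -
          ε * (M (zk k) (2 * T) + NN (k ^ 2) T) ≤
        ∑ j ∈ s, c j * (cexp ((k * α j : ℝ) * I) * Cor (zk k) (α j / Real.log T) T).re := by
  have hk2 : (2:ℝ) ≤ k := by exact_mod_cast hk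
  obtain ⟨N1, hN1⟩ : ∃ N1, N1 = ∑ j ∈ s, |c j| := ⟨_, rfl⟩
  obtain ⟨Λ, hΛ⟩ : ∃ Λ, Λ = ∑ j ∈ s, |c j| * |α j| := ⟨_, rfl⟩
  obtain ⟨a, ha⟩ : ∃ a, a = EdgeBands.ak k := ⟨_, rfl⟩
  have hN0 : 0 ≤ N1 := by rw [hN1]; exact Finset.sum_nonneg fun j _ => by positivity
  have hΛ0 : 0 ≤ Λ := by rw [hΛ]; exact Finset.sum_nonneg fun j _ => by positivity
  obtain ⟨δ, hδ⟩ : ∃ δ, δ = min (1 / 2) (ε / (16 * (Λ + |a| * N1 + 1))) := ⟨_, rfl⟩
  have hδ0 : 0 < δ := by rw [hδ]; positivity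
  have hδ1 : δ ≤ 1 / 2 := by rw [hδ]; exact min_le_left _ _
  have hδ2 : δ * (16 * (Λ + |a| * N1 + 1)) ≤ ε := by
    rw [← le_div_iff₀ (by positivity), hδ]; exact min_le_right _ _
  have haN : 0 ≤ |a| * N1 := by positivity
  have hδ3 : 2 * δ * Λ ≤ ε / 8 := by nlinarith
  have hδ4 : 2 * |a| * (N1 * δ) ≤ ε / 8 := by nlinarith
  obtain ⟨χ, x1, x2, x3, x4, x5, x6⟩ := cutoff ((k:ℝ) - 2) δ (k + 1) (by linarith) hδ0 (by linarith)
  obtain ⟨p, hpd⟩ : ∃ p : ℝ → ℝ, p = fun ξ => ∑ j ∈ s, c j * Real.cos (α j * ξ) := ⟨_, rfl⟩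
  have hpc : ContDiff ℝ ∞ p := by
    rw [hpd]
    exact ContDiff.sum fun j _ => contDiff_const.mul (Real.contDiff_cos.comp (contDiff_const.mul contDiff_id))
  have hpe : ∀ x, p (-x) = p x := by
    intro x
    rw [hpd]
    simp only [mul_neg, Real.cos_neg]
  have hpb : ∀ ξ, |p ξ| ≤ N1 := by
    intro ξ
    rw [hpd, hN1]
    refine (Finset.abs_sum_le_sum_abs _ _).trans (Finset.sum_le_sum fun j _ => ?_)
    rw [abs_mul]
    exact mul_le_of_le_one_right (abs_nonneg _) (Real.abs_cos_le_one _)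
  have hlip : ∀ x y, |p x - p y| ≤ Λ * |x - y| := by
    intro x y
    rw [hpd, hΛ]
    simp only
    rw [← Finset.sum_sub_distrib, Finset.sum_mul]
    refine (Finset.abs_sum_le_sum_abs _ _).trans (Finset.sum_le_sum fun j _ => ?_)
    rw [← mul_sub, abs_mul]
    have h1 := cos_lip (α j * x) (α j * y)
    rw [← mul_sub, abs_mul] at h1
    calc |c j| * |Real.cos (α j * x) - Real.cos (α j * y)| ≤ |c j| * (|α j| * |x - y|) := by gcongr
      _ = _ := by ring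
  have hp' : ∀ ξ : ℝ, |ξ| ≤ (k:ℝ) - 2 → 0 ≤ p ξ := by rw [hpd]; exact hp
  obtain ⟨ψ, hψ⟩ : ∃ ψ : ℝ → ℝ, ψ = fun x => p x * χ x := ⟨_, rfl⟩
  have y1 : ContDiff ℝ ∞ ψ := by rw [hψ]; exact hpc.mul x1
  have y2 : HasCompactSupport ψ := by rw [hψ]; exact x2.mul_left
  have y3 : ∀ x, ψ (-x) = ψ x := by intro x; rw [hψ]; simp only [hpe, x3]
  have y4 : ∀ x, |x| ≤ ((k:ℝ) - 2) + δ → ψ x = 0 := by intro x hx; rw [hψ]; simp only [x5 x hx, mul_zero]
  have y5 : ∀ x, |ψ x| ≤ N1 := by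
    intro x
    rw [hψ]
    simp only
    rw [abs_mul, abs_of_nonneg (x4 x).1]
    calc |p x| * χ x ≤ |p x| * 1 := by gcongr; exact (x4 x).2
      _ ≤ N1 := by rw [mul_one]; exact hpb x
  have y6 : ∀ ξ : ℝ, |ξ| ≤ k + 1 → ψ ξ ≤ p ξ + 2 * δ * Λ := by
    intro ξ hξ
    rw [hψ]
    simp only
    have h4 := x4 ξ
    rcases le_total (|ξ|) ((k:ℝ) - 2 + 2 * δ) with h | h
    · have h5 := near_nonneg (by linarith) hδ0.le hΛ0 hlip hp' h
      have h6 : 0 ≤ 2 * δ * Λ := by positivity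
      nlinarith
    · rw [x6 ξ h hξ, mul_one]
      have h6 : 0 ≤ 2 * δ * Λ := by positivity
      linarith
  have y7 : ∀ ξ : ℝ, ψ ξ ≤ p ξ + N1 := by
    intro ξ
    rw [hψ]
    simp only
    have h4 := x4 ξ
    have h5 := (abs_le.1 (hpb ξ)).1
    nlinarith
  obtain ⟨f1, f2, f3, f4⟩ := ft_facts ψ y1 y2 y3
  obtain ⟨C1, T1, hC1, hT1, q1⟩ := lower (zk_hz k) (zk_symm k) s α c f1 f3 f2 f4 y1.continuous y5
    (η0 := 2 * δ * Λ) (by positivity) (by rw [hpd] at y6; exact y6) (by rw [hpd, hN1] at y7; exact y7)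
    (ε := ε / 8) (by positivity)
  have hlim := edge_limit k hk y1 y2 y3 hδ0 y4
  obtain ⟨T2, hT2⟩ := (Metric.tendsto_atTop.1 hlim) (Real.pi * ε / 4) (by positivity)
  obtain ⟨G, D⟩ := zk_hz k 1 le_rfl
  obtain ⟨C3, X3, hC3, hX3, q3⟩ := exc D (ε := min 1 (ε / (8 * (C1 + 1)))) (by positivity) (min_le_left _ _)
  refine ⟨C3, max (max (max T1 T2) (max X3 (Real.exp 1))) (24 * C1 / ε), hC3, ?_, fun X hX => ?_⟩
  · exact le_max_of_le_left (le_max_of_le_left (le_max_of_le_left hT1))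
  have w1 : T1 ≤ X := (le_max_left _ _).trans ((le_max_left _ _).trans ((le_max_left _ _).trans hX))
  have w2 : T2 ≤ X := (le_max_right _ _).trans ((le_max_left _ _).trans ((le_max_left _ _).trans hX))
  have w3 : X3 ≤ X := (le_max_left _ _).trans ((le_max_right _ _).trans ((le_max_left _ _).trans hX))
  have w4 : Real.exp 1 ≤ X := (le_max_right _ _).trans ((le_max_right _ _).trans ((le_max_left _ _).trans hX))
  have w5 : 24 * C1 / ε ≤ X := (le_max_right _ _).trans hX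
  obtain ⟨E, e1, e2, e3, e4⟩ := q3 X w3
  refine ⟨E, e1, e2, e3, fun T hT hTE => ?_⟩
  have hXT := hT.1
  have hTp : 1 ≤ T := by linarith
  have hM := M_nonneg (zk k) (T := T) (by linarith)
  have hM2 := M_nonneg (zk k) (T := 2 * T) (by linarith)
  have hMM : M (zk k) T ≤ M (zk k) (2 * T) := M_mono D (by linarith)
  have hB := B_nonneg (zk k) T
  have hNg := NN_ge (k ^ 2) (w4.trans hXT)
  have hN : 0 < NN (k ^ 2) T := by linarith
  have q1T := q1 T (w1.trans hXT)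
  have q4T := e4 T hT hTE
  have q2T := hT2 T (w2.trans hXT)
  rw [Real.dist_eq] at q2T
  have v1 := V_close hk2 hδ0 hδ1 (gk_cont k) (gk_bd k) hpc.continuous hpb x1.continuous x4 x6
  have hVp : Vk k p = ∑ j ∈ s, c j * Vk k (fun ξ => Real.cos (α j * ξ)) := by rw [hpd]; exact Vk_sum k s α c
  have v2 : |Vk k p - Vk k ψ| ≤ N1 * δ := by
    unfold Vk
    rw [hψ]
    exact v1
  rw [← hVp, ← ha]
  rw [← ha] at q2T
  obtain ⟨I0, hI0⟩ : ∃ I0, I0 = ∫ β : ℝ, (∫ x : ℝ, ψ x * Real.cos (x * β)) *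
      (cexp ((k * β : ℝ) * I) * Cor (zk k) (β / Real.log T) T).re := ⟨_, rfl⟩
  obtain ⟨R0, hR0⟩ : ∃ R0, R0 = ∑ j ∈ s, c j * (cexp ((k * α j : ℝ) * I) * Cor (zk k) (α j / Real.log T) T).re := ⟨_, rfl⟩
  rw [← hI0] at q1T q2T
  rw [← hR0] at q1T ⊢
  have hpi := Real.pi_pos
  -- the smoothed term
  have u1 : (4 * Real.pi * a * Vk k ψ - Real.pi * ε / 4) * NN (k ^ 2) T ≤ I0 := by
    have h1 := (abs_lt.1 q2T).1
    have h2 : 4 * Real.pi * a * Vk k ψ - Real.pi * ε / 4 ≤ I0 / NN (k ^ 2) T := by linarith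
    rwa [le_div_iff₀ hN] at h2
  have u2 : (2 * a * Vk k ψ - ε / 8) * NN (k ^ 2) T ≤ 1 / (2 * Real.pi) * I0 := by
    have h1 : 1 / (2 * Real.pi) * ((4 * Real.pi * a * Vk k ψ - Real.pi * ε / 4) * NN (k ^ 2) T) ≤
      1 / (2 * Real.pi) * I0 := mul_le_mul_of_nonneg_left u1 (by positivity)
    have h2 : 1 / (2 * Real.pi) * ((4 * Real.pi * a * Vk k ψ - Real.pi * ε / 4) * NN (k ^ 2) T) =
      (2 * a * Vk k ψ - ε / 8) * NN (k ^ 2) T := by
      field_simp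
      ring
    linarith
  have u3 : 2 * a * Vk k p - ε / 8 ≤ 2 * a * Vk k ψ := by
    have h1 : |2 * a * (Vk k p - Vk k ψ)| ≤ 2 * |a| * (N1 * δ) := by
      rw [abs_mul, abs_mul, abs_two]
      gcongr
    have h2 := (abs_le.1 h1).2
    linarith
  have u4 : (2 * a * Vk k p - ε / 4) * NN (k ^ 2) T ≤ 1 / (2 * Real.pi) * I0 := by
    have h1 : (2 * a * Vk k p - ε / 4) * NN (k ^ 2) T ≤ (2 * a * Vk k ψ - ε / 8) * NN (k ^ 2) T :=
      mul_le_mul_of_nonneg_right (by linarith) hN.le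
    linarith
  have u5 : C1 * (1 + B (zk k) T) ≤ ε / 8 * M (zk k) (2 * T) + ε / 8 * NN (k ^ 2) T := by
    obtain ⟨e', he'⟩ : ∃ e', e' = min 1 (ε / (8 * (C1 + 1))) := ⟨_, rfl⟩
    rw [← he'] at q4T
    have h0 : 0 ≤ e' := by rw [he']; positivity
    have h1 : e' * (8 * (C1 + 1)) ≤ ε := by
      rw [← le_div_iff₀ (by positivity), he']; exact min_le_right _ _
    have h2 : C1 * (1 + B (zk k) T) ≤ C1 * (1 + (e' * M (zk k) T + 2)) := by gcongr
    have h3 : C1 * e' ≤ ε / 8 := by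
      have e5 : e' * (8 * (C1 + 1)) = 8 * (C1 * e') + 8 * e' := by ring
      linarith
    have h4 : C1 * e' * M (zk k) T ≤ ε / 8 * M (zk k) (2 * T) := mul_le_mul h3 hMM hM (by positivity)
    have h5 : 3 * C1 ≤ ε / 8 * NN (k ^ 2) T := by
      rw [div_le_iff₀ hε] at w5
      have h6 : X ≤ NN (k ^ 2) T := hXT.trans hNg
      have h7 : X * ε ≤ NN (k ^ 2) T * ε := mul_le_mul_of_nonneg_right h6 hε.le
      linarith
    have e6 : C1 * (1 + (e' * M (zk k) T + 2)) = 3 * C1 + C1 * e' * M (zk k) T := by ring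
    linarith
  have u6 : 2 * δ * Λ * M (zk k) T ≤ ε / 8 * M (zk k) (2 * T) := mul_le_mul hδ3 hMM hM (by positivity)
  have u7 : 0 ≤ ε * M (zk k) (2 * T) := by positivity
  have u8 : 0 ≤ ε * NN (k ^ 2) T := by positivity
  linarith

end

end Pool.Agent.R446.ED
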