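import Pool.Agent.R446.KR.Trig

set_option autoImplicit false

/-! Integrating the spectral approximation over the shift. -/

namespace Pool.Agent.R446.ED

open Complex MeasureTheory Filter Topology Set Pool.Agent.TH535.SM Pool.Agent.R446.KR
open scoped FourierTransform ComplexConjugate

noncomputable section

variable {z : ℝ → ℂ} {G : ℂ → ℂ} {u K : ℕ}

lemma sq_shift (D : Dat z G u K) (hs : ∀ t, ‖z (-t)‖ = ‖z t‖) (a : ℝ) {T : ℝ} (hT : 0 ≤ T) :
    ∫ t in (0:ℝ)..T, ‖z (t + a)‖ ^ 2 ≤ 2 * M z (T + |a|) := by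
  have hi := D.sc.intervalIntegrable (μ := volume)
  rw [intervalIntegral.integral_comp_add_right (fun t => ‖z t‖ ^ 2) a, zero_add]
  have h1 := neg_abs_le a
  have h2 := le_abs_self a
  have hS : 0 ≤ T + |a| := by positivity
  have e : ∫ t in (-(T + |a|))..(T + |a|), ‖z t‖ ^ 2 = 2 * M z (T + |a|) := by
    unfold M
    rw [← intervalIntegral.integral_add_adjacent_intervals (a := -(T + |a|)) (b := 0) (hi _ _) (hi _ _)]
    have e2 : ∫ t in (-(T + |a|))..0, ‖z t‖ ^ 2 = ∫ t in (0:ℝ)..(T + |a|), ‖z t‖ ^ 2 := by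
      have h3 := intervalIntegral.integral_comp_neg (a := 0) (b := T + |a|) (fun t => ‖z t‖ ^ 2)
      rw [neg_zero] at h3
      rw [← h3]
      refine intervalIntegral.integral_congr fun t _ => ?_
      simp only [hs]
    rw [e2]; ring
  rw [← e]
  refine intervalIntegral.integral_mono_interval (by linarith) (by linarith) (by linarith) ?_ (hi _ _)
  exact Eventually.of_forall fun t => by positivity

lemma cor_bd (D : Dat z G u K) (hs : ∀ t, ‖z (-t)‖ = ‖z t‖) (a : ℝ) {T : ℝ} (hT : 0 ≤ T) :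
    ‖Cor z a T‖ ≤ 2 * M z (T + |a|) := by
  have h1 := sq_shift D hs a hT
  have h2 := sq_shift D hs (-a) hT
  rw [abs_neg] at h2
  have c1 : Continuous fun t : ℝ => ‖z (t + a)‖ ^ 2 := D.sc.comp (by fun_prop : Continuous fun t : ℝ => t + a)
  have c2 : Continuous fun t : ℝ => ‖z (t + -a)‖ ^ 2 := D.sc.comp (by fun_prop : Continuous fun t : ℝ => t + -a)
  unfold Cor
  have h3 : ‖∫ t in (0:ℝ)..T, z (t + a) * conj (z (t + -a))‖ ≤
      ∫ t in (0:ℝ)..T, (‖z (t + a)‖ ^ 2 + ‖z (t + -a)‖ ^ 2) / 2 := by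
    refine intervalIntegral.norm_integral_le_of_norm_le hT ?_ ((c1.add c2).div_const 2 |>.intervalIntegrable _ _)
    refine Eventually.of_forall fun t _ => ?_
    rw [norm_mul, RCLike.norm_conj]
    nlinarith [sq_nonneg (‖z (t + a)‖ - ‖z (t + -a)‖)]
  rw [intervalIntegral.integral_div, intervalIntegral.integral_add (c1.intervalIntegrable _ _)
    (c2.intervalIntegrable _ _)] at h3
  linarith

lemma cor_cont (D : Dat z G u K) (T : ℝ) : Continuous (fun a => Cor z a T) := by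
  unfold Cor
  have hz := D.zc
  refine intervalIntegral.continuous_parametric_intervalIntegral_of_continuous' ?_ 0 T
  unfold Function.uncurry
  simp only
  fun_prop

/-- polynomial decay -/
def Rap (Φ : ℝ → ℝ) : Prop := ∀ N : ℕ, ∃ C : ℝ, 0 ≤ C ∧ ∀ β : ℝ, |Φ β| ≤ C / (1 + |β|) ^ N

lemma sq_cmp (β : ℝ) : ((1 + |β|) ^ 2)⁻¹ ≤ (1 + β ^ 2)⁻¹ := by
  refine inv_anti₀ (by positivity) ?_
  have := abs_nonneg β
  have h2 := sq_abs β
  nlinarith

lemma far_pt (D : Dat z G u K) (hs : ∀ t, ‖z (-t)‖ = ‖z t‖) {Φ : ℝ → ℝ} (hΦ : Rap Φ) :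
    ∃ C : ℝ, 0 ≤ C ∧ ∀ T L β : ℝ, 1 ≤ T → 1 ≤ L → L < |β| →
      |Φ β| * ‖Cor z (β / L) T‖ ≤ (C / L * M z (2 * T) + C) * (1 + β ^ 2)⁻¹ := by
  obtain ⟨C1, q, hC1, hM⟩ := M_upper D
  obtain ⟨C3, hC3, h3⟩ := hΦ 3
  obtain ⟨C4, hC4, h4⟩ := hΦ (q + 2)
  refine ⟨2 * C3 + 2 * (C4 * (C1 * 2 ^ q)), by positivity, fun T L β hT hL hβ => ?_⟩
  have hT0 : 0 ≤ T := by linarith
  have hM2 := M_nonneg z (T := 2 * T) (by linarith)
  have hc := cor_bd D hs (β / L) hT0
  have ha : |β / L| = |β| / L := by rw [abs_div, abs_of_pos (by linarith : (0:ℝ) < L)]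
  rw [ha] at hc
  have hb1 : 1 < |β| := lt_of_le_of_lt hL hβ
  have hsq := sq_cmp β
  have hi0 : 0 ≤ (1 + β ^ 2)⁻¹ := by positivity
  have hbl : |β| / L ≤ |β| := div_le_self (abs_nonneg _) hL
  rcases le_total (|β|) (L * T) with h | h
  · have h5 : |β| / L ≤ T := by rw [div_le_iff₀ (by linarith)]; linarith
    have h6 : M z (T + |β| / L) ≤ M z (2 * T) := M_mono D (by linarith)
    have h7 : |Φ β| ≤ C3 / L * (1 + β ^ 2)⁻¹ := by
      refine (h3 β).trans ?_
      have e3 : C3 / (1 + |β|) ^ 3 = C3 * (((1 + |β|) ^ 2)⁻¹ * (1 + |β|)⁻¹) := by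
        rw [← mul_inv, ← pow_succ, div_eq_mul_inv]
      have e4 : C3 / L * (1 + β ^ 2)⁻¹ = C3 * ((1 + β ^ 2)⁻¹ * L⁻¹) := by ring
      rw [e3, e4]
      have h8 : (1 + |β|)⁻¹ ≤ L⁻¹ := inv_anti₀ (by linarith) (by linarith)
      gcongr
    calc |Φ β| * ‖Cor z (β / L) T‖ ≤ (C3 / L * (1 + β ^ 2)⁻¹) * (2 * M z (2 * T)) := by
          gcongr
          linarith
      _ ≤ _ := by
          have : 0 ≤ (2 * (C4 * (C1 * 2 ^ q))) / L * M z (2 * T) := by positivity
          have h8 : 0 ≤ 2 * C3 + 2 * (C4 * (C1 * 2 ^ q)) := by positivity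
          have e : (C3 / L * (1 + β ^ 2)⁻¹) * (2 * M z (2 * T)) = (2 * C3 / L * M z (2 * T)) * (1 + β ^ 2)⁻¹ := by ring
          rw [e]
          refine mul_le_mul_of_nonneg_right ?_ hi0
          have e2 : (2 * C3 + 2 * (C4 * (C1 * 2 ^ q))) / L * M z (2 * T) = 2 * C3 / L * M z (2 * T) +
            (2 * (C4 * (C1 * 2 ^ q))) / L * M z (2 * T) := by ring
          linarith
  · have h5 : T ≤ |β| := by nlinarith
    have h6 : M z (T + |β| / L) ≤ C1 * (2 * (1 + |β|)) ^ q := by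
      refine (hM _ (by positivity)).trans ?_
      gcongr
      linarith
    have h7 : |Φ β| * ‖Cor z (β / L) T‖ ≤ C4 / (1 + |β|) ^ (q + 2) * (2 * (C1 * (2 * (1 + |β|)) ^ q)) := by
      refine mul_le_mul (h4 β) (hc.trans (by linarith)) (norm_nonneg _) (by positivity)
    have e : C4 / (1 + |β|) ^ (q + 2) * (2 * (C1 * (2 * (1 + |β|)) ^ q)) =
        2 * (C4 * (C1 * 2 ^ q)) * ((1 + |β|) ^ 2)⁻¹ := by
      have : (1 + |β|) ≠ 0 := by positivity
      rw [mul_pow, pow_add]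
      field_simp
    rw [e] at h7
    have h8 : 2 * (C4 * (C1 * 2 ^ q)) * ((1 + |β|) ^ 2)⁻¹ ≤ 2 * (C4 * (C1 * 2 ^ q)) * (1 + β ^ 2)⁻¹ := by
      gcongr
    have h9 : 0 ≤ (2 * C3 + 2 * (C4 * (C1 * 2 ^ q))) / L * M z (2 * T) := by positivity
    refine (h7.trans h8).trans (mul_le_mul_of_nonneg_right ?_ hi0)
    linarith

lemma Sp_abs {F : ℝ → ℂ} (hF : Dec F) (a κ : ℝ) : |Sp F a κ| ≤ ∫ w, ‖𝓕 F w‖ ^ 2 := by
  unfold Sp
  rw [← Real.norm_eq_abs]
  refine norm_integral_le_of_norm_le (planch hF).1 (Eventually.of_forall fun w => ?_)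
  rw [norm_mul, Real.norm_eq_abs, Real.norm_of_nonneg (by positivity : (0:ℝ) ≤ ‖𝓕 F w‖ ^ 2)]
  exact mul_le_of_le_one_left (by positivity) (Real.abs_cos_le_one _)

/-- integrating the spectral side -/
lemma fub {F : ℝ → ℂ} (hF : Dec F) {Φ ψ : ℝ → ℝ} (hc : Continuous Φ) (hi : Integrable Φ)
    (hinv : ∀ ξ : ℝ, ∫ β : ℝ, Φ β * Real.cos (β * ξ) = 2 * Real.pi * ψ ξ) (k : ℝ) {L : ℝ} (hL : 0 < L) :
    Integrable (fun β => Φ β * Sp F (β / L) (k * β)) ∧
    ∫ β, Φ β * Sp F (β / L) (k * β) = 2 * Real.pi * ∫ w, ψ (k + 4 * Real.pi * w / L) * ‖𝓕 F w‖ ^ 2 := by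
  have hfc := ft_cont hF
  have hprod : Integrable (fun p : ℝ × ℝ => Φ p.1 * (Real.cos (4 * Real.pi * (p.1 / L) * p.2 + k * p.1) *
      ‖𝓕 F p.2‖ ^ 2)) (volume.prod volume) := by
    refine (hi.mul_prod (planch hF).1).mono ?_ (Eventually.of_forall fun p => ?_)
    · have : Continuous (fun p : ℝ × ℝ => Φ p.1 * (Real.cos (4 * Real.pi * (p.1 / L) * p.2 + k * p.1) *
        ‖𝓕 F p.2‖ ^ 2)) := by fun_prop
      exact this.aestronglyMeasurable
    · rw [norm_mul, norm_mul, norm_mul]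
      refine mul_le_mul_of_nonneg_left ?_ (norm_nonneg _)
      refine mul_le_of_le_one_left (norm_nonneg _) ?_
      rw [Real.norm_eq_abs]
      exact Real.abs_cos_le_one _
  constructor
  · have h := hprod.integral_prod_left
    refine h.congr (Eventually.of_forall fun β => ?_)
    simp only
    unfold Sp
    rw [← integral_const_mul]
  · have h := integral_integral_swap (f := fun β w => Φ β * (Real.cos (4 * Real.pi * (β / L) * w + k * β) *
      ‖𝓕 F w‖ ^ 2)) hprod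
    unfold Sp
    simp_rw [← integral_const_mul]
    rw [h]
    refine integral_congr_ae (Eventually.of_forall fun w => ?_)
    simp only
    have e : ∀ β : ℝ, Φ β * (Real.cos (4 * Real.pi * (β / L) * w + k * β) * ‖𝓕 F w‖ ^ 2) =
        ‖𝓕 F w‖ ^ 2 * (Φ β * Real.cos (β * (k + 4 * Real.pi * w / L))) := by
      intro β
      have : 4 * Real.pi * (β / L) * w + k * β = β * (k + 4 * Real.pi * w / L) := by
        field_simp
        ring
      rw [this]; ring
    simp_rw [e]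
    rw [integral_const_mul, hinv]
    ring

/-- the smoothed shift against the spectrum -/
theorem smooth_close (D : Dat z G u K) (hs : ∀ t, ‖z (-t)‖ = ‖z t‖) {Φ ψ : ℝ → ℝ} (hc : Continuous Φ)
    (hi : Integrable Φ) (hΦ : Rap Φ)
    (hinv : ∀ ξ : ℝ, ∫ β : ℝ, Φ β * Real.cos (β * ξ) = 2 * Real.pi * ψ ξ) {ε : ℝ} (hε : 0 < ε) :
    ∃ C T0 : ℝ, 0 ≤ C ∧ 1 ≤ T0 ∧ ∀ T : ℝ, T0 ≤ T →
      |(∫ β, Φ β * (cexp ((K * β : ℝ) * I) * Cor z (β / Real.log T) T).re) -
        2 * Real.pi * ∫ w, ψ (K + 4 * Real.pi * w / Real.log T) * ‖𝓕 (Fn G T 0) w‖ ^ 2| ≤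
        ε * M z (2 * T) + C * (1 + B z T) := by
  obtain ⟨P, hP⟩ : ∃ P, P = ∫ β, |Φ β| := ⟨_, rfl⟩
  have hP0 : 0 ≤ P := by rw [hP]; exact integral_nonneg fun β => abs_nonneg _
  obtain ⟨η, hη⟩ : ∃ η, η = min (1 / 2) (ε / (4 * (P + 1))) := ⟨_, rfl⟩
  have hη0 : 0 < η := by rw [hη]; positivity
  have hη1 : η < 1 := by rw [hη]; exact lt_of_le_of_lt (min_le_left _ _) (by norm_num)
  have hη2 : P * η ≤ ε / 4 := by
    have h1 : η ≤ ε / (4 * (P + 1)) := by rw [hη]; exact min_le_right _ _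
    rw [le_div_iff₀ (by positivity)] at h1
    nlinarith
  obtain ⟨C1, T1, hC1, hT1, h1⟩ := spec_close D hη0 hη1
  obtain ⟨C2, hC2, h2⟩ := far_pt D hs hΦ
  obtain ⟨C3, hC3, h3⟩ := hΦ 3
  -- size of log
  obtain ⟨L0, hL0⟩ : ∃ L0, L0 = 1 + Real.pi * (C2 + 2 * C3) * (4 / ε) := ⟨_, rfl⟩
  have hpi := Real.pi_pos
  have hL01 : 1 ≤ L0 := by rw [hL0]; have : 0 ≤ Real.pi * (C2 + 2 * C3) * (4 / ε) := by positivity
                           linarith
  refine ⟨P * C1 + Real.pi * (C2 + C3 * C1), max T1 (Real.exp L0), by positivity, le_max_of_le_left hT1,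
    fun T hT => ?_⟩
  have hTT1 : T1 ≤ T := (le_max_left _ _).trans hT
  have hTp : 1 ≤ T := hT1.trans hTT1
  have hT0 : 0 < T := by linarith
  have hL : L0 ≤ Real.log T := by
    rw [Real.le_log_iff_exp_le hT0]; exact (le_max_right _ _).trans hT
  obtain ⟨L, hLd⟩ : ∃ L, L = Real.log T := ⟨_, rfl⟩
  rw [← hLd] at hL ⊢
  have hL1 : 1 ≤ L := hL01.trans hL
  have hLp : 0 < L := by linarith
  have hdec := Fn_dec D.pg hTp (r := 0) (by simp) (by positivity)
  have hM := M_nonneg z (T := T) (by linarith)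
  have hM2 := M_nonneg z (T := 2 * T) (by linarith)
  have hMM : M z T ≤ M z (2 * T) := M_mono D (by linarith)
  have hB := B_nonneg z T
  obtain ⟨i1, i2⟩ := fub hdec hc hi hinv K hLp
  obtain ⟨R, hR⟩ : ∃ R, R = ∫ w, ‖𝓕 (Fn G T 0) w‖ ^ 2 := ⟨_, rfl⟩
  have hR0 : 0 ≤ R := by rw [hR]; exact integral_nonneg fun w => by positivity
  have hRb : R ≤ 2 * M z (2 * T) + C1 * (1 + B z T) := by
    have h4 := h1 T hTT1 0 0 (by simp)
    have e1 : Sp (Fn G T 0) 0 0 = R := by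
      rw [hR]
      unfold Sp
      refine integral_congr_ae (Eventually.of_forall fun w => ?_)
      simp
    have e2 : (cexp ((0:ℝ) * I) * Cor z 0 T).re = M z T := by
      simp only [ofReal_zero, zero_mul, Complex.exp_zero, one_mul]
      unfold Cor M
      have e : ∫ t in (0:ℝ)..T, z (t + 0) * conj (z (t + -0)) =
          ((∫ t in (0:ℝ)..T, ‖z t‖ ^ 2 : ℝ) : ℂ) := by
        rw [← intervalIntegral.integral_ofReal]
        refine intervalIntegral.integral_congr fun t _ => ?_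
        simp only [neg_zero, add_zero]
        rw [Complex.mul_conj, Complex.normSq_eq_norm_sq]
      rw [e, Complex.ofReal_re]
    rw [e1, e2] at h4
    have := (abs_le.1 h4).1
    nlinarith
  rw [← i2]
  -- pointwise
  set b1 : ℝ := η * M z T + C1 * (1 + B z T) with hb1
  set b2 : ℝ := C2 / L * M z (2 * T) + C2 + C3 / L * R with hb2
  have hb10 : 0 ≤ b1 := by positivity
  have hb20 : 0 ≤ b2 := by positivity
  set f : ℝ → ℝ := fun β => Φ β * (cexp ((K * β : ℝ) * I) * Cor z (β / L) T).re with hf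
  set g : ℝ → ℝ := fun β => Φ β * Sp (Fn G T 0) (β / L) (K * β) with hg
  have hpt : ∀ β : ℝ, ‖f β - g β‖ ≤ |Φ β| * b1 + b2 * (1 + β ^ 2)⁻¹ := by
    intro β
    have hi0 : 0 ≤ (1 + β ^ 2)⁻¹ := by positivity
    simp only [hf, hg]
    rw [← mul_sub, norm_mul, Real.norm_eq_abs, Real.norm_eq_abs]
    rcases le_or_gt (|β|) L with h | h
    · have h5 : |β / L| ≤ 1 := by rw [abs_div, abs_of_pos hLp, div_le_one hLp]; exact h
      have h6 := h1 T hTT1 (β / L) (K * β) h5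
      have h7 : |Φ β| * |(cexp ((K * β : ℝ) * I) * Cor z (β / L) T).re - Sp (Fn G T 0) (β / L) (K * β)| ≤ |Φ β| * b1 :=
        mul_le_mul_of_nonneg_left h6 (abs_nonneg _)
      have h8 : 0 ≤ b2 * (1 + β ^ 2)⁻¹ := by positivity
      linarith
    · have h5 := h2 T L β hTp hL1 h
      have h6 := Sp_abs hdec (β / L) (K * β)
      rw [← hR] at h6
      have h7 : |(cexp ((K * β : ℝ) * I) * Cor z (β / L) T).re| ≤ ‖Cor z (β / L) T‖ := by
        refine (Complex.abs_re_le_norm _).trans ?_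
        rw [norm_mul, Complex.norm_exp_ofReal_mul_I, one_mul]
      have h8 : |(cexp ((K * β : ℝ) * I) * Cor z (β / L) T).re - Sp (Fn G T 0) (β / L) (K * β)| ≤
          ‖Cor z (β / L) T‖ + R := (abs_sub _ _).trans (add_le_add h7 h6)
      have h9 : |Φ β| ≤ C3 / L * (1 + β ^ 2)⁻¹ := by
        refine (h3 β).trans ?_
        have e3 : C3 / (1 + |β|) ^ 3 = C3 * (((1 + |β|) ^ 2)⁻¹ * (1 + |β|)⁻¹) := by
          rw [← mul_inv, ← pow_succ, div_eq_mul_inv]
        have e4 : C3 / L * (1 + β ^ 2)⁻¹ = C3 * ((1 + β ^ 2)⁻¹ * L⁻¹) := by ring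
        rw [e3, e4]
        have h8 : (1 + |β|)⁻¹ ≤ L⁻¹ := inv_anti₀ (by linarith) (by linarith)
        have hsq := sq_cmp β
        gcongr
      have h10 : |Φ β| * R ≤ C3 / L * (1 + β ^ 2)⁻¹ * R := mul_le_mul_of_nonneg_right h9 hR0
      have h11 : |Φ β| * |(cexp ((K * β : ℝ) * I) * Cor z (β / L) T).re - Sp (Fn G T 0) (β / L) (K * β)| ≤
          |Φ β| * (‖Cor z (β / L) T‖ + R) := mul_le_mul_of_nonneg_left h8 (abs_nonneg _)
      have h12 : 0 ≤ |Φ β| * b1 := by positivity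
      have h13 : b2 * (1 + β ^ 2)⁻¹ = (C2 / L * M z (2 * T) + C2) * (1 + β ^ 2)⁻¹ + C3 / L * (1 + β ^ 2)⁻¹ * R := by
        rw [hb2]; ring
      rw [h13]
      linarith
  have hIb : Integrable (fun β : ℝ => |Φ β| * b1 + b2 * (1 + β ^ 2)⁻¹) :=
    (hi.abs.mul_const _).add (integrable_inv_one_add_sq.const_mul _)
  have hfm : AEStronglyMeasurable (fun β => f β - g β) volume := by
    have hfc : Continuous f := by
      have := cor_cont D T
      have h5 : Continuous fun β : ℝ => Cor z (β / L) T := this.comp (by fun_prop)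
      simp only [hf]
      exact hc.mul (Complex.continuous_re.comp ((by fun_prop : Continuous fun β : ℝ =>
        cexp ((K * β : ℝ) * I)).mul h5))
    exact hfc.aestronglyMeasurable.sub i1.aestronglyMeasurable
  have hfg : Integrable (fun β => f β - g β) := hIb.mono' hfm (Eventually.of_forall hpt)
  have hfi : Integrable f := by
    have := hfg.add i1
    refine this.congr (Eventually.of_forall fun β => ?_)
    simp [hg]
  have hmain : |(∫ β, f β) - ∫ β, g β| ≤ P * b1 + b2 * Real.pi := by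
    rw [← integral_sub hfi i1, ← Real.norm_eq_abs]
    refine (norm_integral_le_of_norm_le hIb (Eventually.of_forall hpt)).trans (le_of_eq ?_)
    rw [integral_add (hi.abs.mul_const _) (integrable_inv_one_add_sq.const_mul _), integral_mul_const,
      integral_const_mul, integral_univ_inv_one_add_sq, hP]
  refine hmain.trans ?_
  -- arithmetic
  have hLinv : Real.pi * (C2 + 2 * C3) / L ≤ ε / 4 := by
    rw [div_le_iff₀ hLp]
    have h5 : Real.pi * (C2 + 2 * C3) * (4 / ε) ≤ L := by rw [hL0] at hL; linarith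
    have h6 : Real.pi * (C2 + 2 * C3) * (4 / ε) * (ε / 4) ≤ L * (ε / 4) := mul_le_mul_of_nonneg_right h5 (by positivity)
    have h7 : Real.pi * (C2 + 2 * C3) * (4 / ε) * (ε / 4) = Real.pi * (C2 + 2 * C3) := by field_simp
    linarith
  have q1 : C3 / L * R ≤ 2 * C3 / L * M z (2 * T) + C3 * C1 * (1 + B z T) := by
    have h5 : C3 / L * R ≤ C3 / L * (2 * M z (2 * T) + C1 * (1 + B z T)) := by gcongr
    have h6 : C3 / L * (C1 * (1 + B z T)) ≤ C3 * (C1 * (1 + B z T)) := by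
      refine mul_le_mul_of_nonneg_right (div_le_self hC3 hL1) (by positivity)
    have h7 : C3 / L * (2 * M z (2 * T) + C1 * (1 + B z T)) = 2 * C3 / L * M z (2 * T) + C3 / L * (C1 * (1 + B z T)) := by ring
    linarith
  have q2 : b2 * Real.pi ≤ Real.pi * (C2 + 2 * C3) / L * M z (2 * T) + Real.pi * (C2 + C3 * C1) * (1 + B z T) := by
    have h5 : b2 ≤ C2 / L * M z (2 * T) + C2 + (2 * C3 / L * M z (2 * T) + C3 * C1 * (1 + B z T)) := by
      rw [hb2]; linarith
    have h6 : b2 * Real.pi ≤ (C2 / L * M z (2 * T) + C2 + (2 * C3 / L * M z (2 * T) + C3 * C1 * (1 + B z T))) * Real.pi :=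
      mul_le_mul_of_nonneg_right h5 hpi.le
    have h7 : 0 ≤ Real.pi * C2 * B z T := by positivity
    have h8 : (C2 / L * M z (2 * T) + C2 + (2 * C3 / L * M z (2 * T) + C3 * C1 * (1 + B z T))) * Real.pi =
      Real.pi * (C2 + 2 * C3) / L * M z (2 * T) + Real.pi * (C2 + C3 * C1) * (1 + B z T) - Real.pi * C2 * B z T := by ring
    linarith
  have q3 : Real.pi * (C2 + 2 * C3) / L * M z (2 * T) ≤ ε / 4 * M z (2 * T) := mul_le_mul_of_nonneg_right hLinv hM2
  have q4 : P * b1 ≤ ε / 4 * M z (2 * T) + P * C1 * (1 + B z T) := by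
    have h5 : P * b1 = P * η * M z T + P * C1 * (1 + B z T) := by rw [hb1]; ring
    have h6 : P * η * M z T ≤ ε / 4 * M z (2 * T) := mul_le_mul hη2 hMM hM (by positivity)
    linarith
  have q5 : 0 ≤ ε * M z (2 * T) := by positivity
  have q6 : (P * C1 + Real.pi * (C2 + C3 * C1)) * (1 + B z T) = P * C1 * (1 + B z T) + Real.pi * (C2 + C3 * C1) * (1 + B z T) := by ring
  linarith

end

end Pool.Agent.R446.ED
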