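import Pool.Agent.R446.ED.Low
import Pool.Agent.R446.ED.FT
import Pool.Agent.R446.ED.Cut
import Pool.Agent.Results.MP_069854_nt.EdgeBands
import Pool.Agent.Results.MP_069854_nt.ShiftRigidity

set_option autoImplicit false

/-! The known edges of the spectrum of the moments of zeta. -/

namespace Pool.Agent.R446.ED

open Complex MeasureTheory Filter Topology Set Pool.Agent.TH535.SM Pool.Agent.R446.KR
open Pool.Agent.Results.MP_069854_nt
open scoped FourierTransform ComplexConjugate ContDiff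

noncomputable section

/-- the density at the edges -/
def gk (k : ℕ) (x : ℝ) : ℝ := x ^ (k ^ 2 - 1) / (k ^ 2 - 1).factorial

lemma gk_cont (k : ℕ) : Continuous (gk k) := by unfold gk; fun_prop

lemma gk_bd (k : ℕ) : ∀ x ∈ Icc (0:ℝ) 1, 0 ≤ gk k x ∧ gk k x ≤ 1 := by
  intro x hx
  unfold gk
  have h1 : (1:ℝ) ≤ (k ^ 2 - 1).factorial := by exact_mod_cast Nat.factorial_pos _
  have h2 : x ^ (k ^ 2 - 1) ≤ 1 := pow_le_one₀ hx.1 hx.2
  have h3 : 0 ≤ x ^ (k ^ 2 - 1) := pow_nonneg hx.1 _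
  refine ⟨by positivity, ?_⟩
  rw [div_le_one (by linarith)]
  linarith

/-- the integral against the edge density -/
def Vk (k : ℕ) (ψ : ℝ → ℝ) : ℝ := ∫ x in (0:ℝ)..1, gk k x * ψ (k - 2 * x)

lemma phi_shift (k : ℕ) {ψ : ℝ → ℝ} (hψ : Continuous ψ) (hc : HasCompactSupport ψ) (he : ∀ x, ψ (-x) = ψ x)
    (β : ℝ) : EdgeBands.phi (fun ξ => ((ψ (ξ - k) : ℝ) : ℂ)) β =
      cexp ((k * β : ℝ) * I) * ((∫ x : ℝ, ψ x * Real.cos (x * β) : ℝ) : ℂ) := by
  unfold EdgeBands.phi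
  have h1 := integral_sub_right_eq_self (μ := (volume : Measure ℝ))
    (fun x : ℝ => ((ψ x : ℝ) : ℂ) * cexp (I * ((x + k : ℝ) : ℂ) * β)) (k : ℝ)
  simp only [sub_add_cancel] at h1
  rw [h1]
  have ic : Integrable (fun x : ℝ => ψ x * Real.cos (x * β)) :=
    (by fun_prop : Continuous fun x : ℝ => ψ x * Real.cos (x * β)).integrable_of_hasCompactSupport hc.mul_right
  have is : Integrable (fun x : ℝ => ψ x * Real.sin (x * β)) :=
    (by fun_prop : Continuous fun x : ℝ => ψ x * Real.sin (x * β)).integrable_of_hasCompactSupport hc.mul_right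
  have hsin : ∫ x : ℝ, ψ x * Real.sin (x * β) = 0 := by
    have h2 := integral_neg_eq_self (fun x : ℝ => ψ x * Real.sin (x * β)) volume
    have h3 : ∫ x : ℝ, ψ (-x) * Real.sin (-x * β) = -∫ x : ℝ, ψ x * Real.sin (x * β) := by
      rw [← integral_neg]
      refine integral_congr_ae (Eventually.of_forall fun x => ?_)
      simp only
      rw [he, neg_mul, Real.sin_neg, mul_neg]
    rw [h3] at h2
    linarith
  have e : ∀ x : ℝ, ((ψ x : ℝ) : ℂ) * cexp (I * ((x + k : ℝ) : ℂ) * β) =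
      cexp ((k * β : ℝ) * I) * (((ψ x * Real.cos (x * β) : ℝ) : ℂ) + ((ψ x * Real.sin (x * β) : ℝ) : ℂ) * I) := by
    intro x
    have e1 : I * ((x + k : ℝ) : ℂ) * β = (k * β : ℝ) * I + (x * β : ℝ) * I := by push_cast; ring
    rw [e1, Complex.exp_add, Complex.exp_ofReal_mul_I ((x * β : ℝ))]
    push_cast
    ring
  simp_rw [e]
  have ic' : Integrable (fun x : ℝ => ((ψ x * Real.cos (x * β) : ℝ) : ℂ)) := ic.ofReal
  have is' : Integrable (fun x : ℝ => ((ψ x * Real.sin (x * β) : ℝ) : ℂ) * I) := is.ofReal.mul_const I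
  have v1 : ∫ x : ℝ, ((ψ x * Real.cos (x * β) : ℝ) : ℂ) = ((∫ x : ℝ, ψ x * Real.cos (x * β) : ℝ) : ℂ) :=
    integral_ofReal
  have v2 : ∫ x : ℝ, ((ψ x * Real.sin (x * β) : ℝ) : ℂ) * I = 0 := by
    have v3 : ∫ x : ℝ, ((ψ x * Real.sin (x * β) : ℝ) : ℂ) = ((∫ x : ℝ, ψ x * Real.sin (x * β) : ℝ) : ℂ) :=
      integral_ofReal
    rw [integral_mul_const, v3, hsin]
    simp
  rw [integral_const_mul, integral_add ic' is', v1, v2, add_zero]

lemma Qk_eq (k : ℕ) (α T : ℝ) : EdgeBands.Qk k α T =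
    Cor (zk k) (α / Real.log T) T / ((NN (k ^ 2) T : ℝ) : ℂ) := ShiftRigidity.Q_eq k α T

lemma edge_val (k : ℕ) {ψ : ℝ → ℝ} (hψ : Continuous ψ) (he : ∀ x, ψ (-x) = ψ x) (a : ℝ) :
    (2 * Real.pi * a *
        ((∫ x in (0:ℝ)..1, (x : ℂ) ^ (k ^ 2 - 1) / (k ^ 2 - 1).factorial * ((ψ (2 * x - k) : ℝ) : ℂ)) +
        ∫ x in (k - 1 : ℝ)..k, ((k : ℂ) - x) ^ (k ^ 2 - 1) / (k ^ 2 - 1).factorial * ((ψ (2 * x - k) : ℝ) : ℂ)) : ℂ) =
      ((4 * Real.pi * a * Vk k ψ : ℝ) : ℂ) := by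
  have e1 : (∫ x in (0:ℝ)..1, (x : ℂ) ^ (k ^ 2 - 1) / (k ^ 2 - 1).factorial * ((ψ (2 * x - k) : ℝ) : ℂ)) =
      ((Vk k ψ : ℝ) : ℂ) := by
    unfold Vk
    rw [← intervalIntegral.integral_ofReal]
    refine intervalIntegral.integral_congr fun x _ => ?_
    unfold gk
    rw [show (2 * x - k : ℝ) = -(k - 2 * x) by ring, he]
    push_cast
    ring
  have e2 : (∫ x in (k - 1 : ℝ)..k, ((k : ℂ) - x) ^ (k ^ 2 - 1) / (k ^ 2 - 1).factorial * ((ψ (2 * x - k) : ℝ) : ℂ)) =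
      ((Vk k ψ : ℝ) : ℂ) := by
    unfold Vk
    rw [← intervalIntegral.integral_ofReal]
    have h := intervalIntegral.integral_comp_sub_left (a := (k - 1 : ℝ)) (b := (k : ℝ))
      (fun x : ℝ => ((gk k x * ψ (k - 2 * x) : ℝ) : ℂ)) (k : ℝ)
    rw [sub_self, sub_sub_cancel] at h
    rw [← h]
    refine intervalIntegral.integral_congr fun x _ => ?_
    unfold gk
    rw [show (k - 2 * (k - x) : ℝ) = 2 * x - k by ring]
    push_cast
    ring
  rw [e1, e2]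
  push_cast
  ring

/-- the smoothed moments at the edges -/
theorem edge_limit (k : ℕ) (hk : 2 ≤ k) {ψ : ℝ → ℝ} (hψ : ContDiff ℝ ∞ ψ) (hc : HasCompactSupport ψ)
    (he : ∀ x, ψ (-x) = ψ x) {δ : ℝ} (hδ : 0 < δ) (h0 : ∀ x, |x| ≤ (k - 2) + δ → ψ x = 0) :
    Tendsto (fun T : ℝ => (∫ β : ℝ, (∫ x : ℝ, ψ x * Real.cos (x * β)) *
      (cexp ((k * β : ℝ) * I) * Cor (zk k) (β / Real.log T) T).re) / NN (k ^ 2) T) atTop
      (𝓝 (4 * Real.pi * EdgeBands.ak k * Vk k ψ)) := by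
  have hψ' : ContDiff ℝ ∞ (fun ξ : ℝ => ((ψ (ξ - k) : ℝ) : ℂ)) :=
    Complex.ofRealCLM.contDiff.comp (hψ.comp (contDiff_id.sub contDiff_const))
  have hc1 : HasCompactSupport (fun ξ : ℝ => ψ (ξ - k)) := by
    have := hc.comp_homeomorph (Homeomorph.subRight (k : ℝ))
    exact this
  have hc' : HasCompactSupport (fun ξ : ℝ => ((ψ (ξ - k) : ℝ) : ℂ)) := by
    apply hc1.comp_left (g := fun y : ℝ => (y : ℂ)); simp
  have hs : ∀ ξ ∈ Set.Icc (2:ℝ) (2 * k - 2), ξ ∉ tsupport (fun ξ : ℝ => ((ψ (ξ - k) : ℝ) : ℂ)) := by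
    intro ξ hξ
    rw [notMem_tsupport_iff_eventuallyEq]
    have : Metric.ball ξ δ ∈ 𝓝 ξ := Metric.ball_mem_nhds _ hδ
    filter_upwards [this] with y hy
    rw [Metric.mem_ball, Real.dist_eq] at hy
    have h1 : |y - k| ≤ (k - 2) + δ := by
      rw [abs_le]
      have h2 := abs_lt.1 hy
      constructor
      · linarith [hξ.1]
      · linarith [hξ.2]
    simp only [h0 _ h1, Complex.ofReal_zero, Pi.zero_apply]
  obtain ⟨_, hint, hlim⟩ := EdgeBands.result k hk _ hψ' hc' hs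
  have h3 := edge_val k hψ.continuous he (EdgeBands.ak k)
  have h4 : Tendsto (fun T : ℝ => ∫ α : ℝ, EdgeBands.phi (fun ξ : ℝ => ((ψ (ξ - k) : ℝ) : ℂ)) α * EdgeBands.Qk k α T)
      atTop (𝓝 ((4 * Real.pi * EdgeBands.ak k * Vk k ψ : ℝ) : ℂ)) := by
    rw [← h3]
    exact hlim
  have h5 := (Complex.continuous_re.tendsto _).comp h4
  rw [Complex.ofReal_re] at h5
  refine h5.congr' ?_
  filter_upwards [eventually_ge_atTop (Real.exp 1)] with T hT
  simp only [Function.comp]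
  have h6 := hint T hT
  have h7 := integral_re h6
  simp only [RCLike.re_eq_complex_re] at h7
  rw [← h7, ← integral_div]
  refine integral_congr_ae (Eventually.of_forall fun β => ?_)
  simp only
  rw [phi_shift k hψ.continuous hc he β, Qk_eq]
  have e : cexp ((k * β : ℝ) * I) * ((∫ x : ℝ, ψ x * Real.cos (x * β) : ℝ) : ℂ) *
      (Cor (zk k) (β / Real.log T) T / ((NN (k ^ 2) T : ℝ) : ℂ)) =
      (((∫ x : ℝ, ψ x * Real.cos (x * β)) / NN (k ^ 2) T : ℝ) : ℂ) * (cexp ((k * β : ℝ) * I) * Cor (zk k) (β / Real.log T) T) := by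
    push_cast
    ring
  rw [e, Complex.re_ofReal_mul]
  ring

end

end Pool.Agent.R446.ED
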